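import Mathlib

/-!
# Petrie schemes: definitions (flag systems, cubes, crosspolytopes, products, polygons)
-/

set_option linter.checkUnivs false

namespace Pool.Agent.Q238.PT

universe u v

/-- The flags of an abstract polytope of rank `n`: for every rank `i < n` a type of (proper)
faces of rank `i`, the face of rank `i` of a flag, and the relation of being `i`-adjacent. -/
structure FlagSystem (n : ℕ) where
  Flag : Type u
  Face : Fin n → Type v
  face : (i : Fin n) → Flag → Face i
  Adj : Fin n → Flag → Flag → Prop

namespace FlagSystem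

variable {n : ℕ} (S : FlagSystem.{u, v} n)

/-- `S.Along [i₁, …, i_m] Ψ Φ` says `Φ = Ψ γ_{i₁} ⋯ γ_{i_m}`: one goes from `Ψ` to an
`i₁`-adjacent flag, then to an `i₂`-adjacent flag, and so on. -/
def Along : List (Fin n) → S.Flag → S.Flag → Prop
  | [], Ψ, Φ => Φ = Ψ
  | i :: l, Ψ, Φ => ∃ X, S.Adj i Ψ X ∧ Along l X Φ

/-- `Ψ` is a two-sided sequence `(Ψ₀ γ^k)`, `k ∈ ℤ`, for `γ = γ_{i₁} ⋯ γ_{i_n}`, where
`l = [i₁, …, i_n]` lists every rank exactly once. -/
def IsPetrie (l : List (Fin n)) (Ψ : ℤ → S.Flag) : Prop :=
  l.Perm (List.finRange n) ∧ ∀ k, S.Along l (Ψ k) (Ψ (k + 1))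

/-- every proper face occurs in at most one of the flags of the sequence -/
def Acoptic (Ψ : ℤ → S.Flag) : Prop :=
  ∀ i k m, S.face i (Ψ k) = S.face i (Ψ m) → Ψ k = Ψ m

/-- all Petrie schemes are acoptic -/
def OnlyAcoptic : Prop := ∀ l Ψ, S.IsPetrie l Ψ → S.Acoptic Ψ

end FlagSystem

/-- The flag system of a polytope of dimension `n` whose nonempty proper faces form the
partially ordered set `F`: the flags are the chains of `n` nonempty proper faces; two flags are
`i`-adjacent if they differ exactly in rank `i`. -/
def ofPoset (F : Type u) [PartialOrder F] (n : ℕ) : FlagSystem.{u, u} n where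
  Flag := {Ψ : Fin n → F // StrictMono Ψ}
  Face := fun _ => F
  face := fun i Ψ => Ψ.1 i
  Adj := fun i Ψ Φ => Ψ.1 i ≠ Φ.1 i ∧ ∀ j, j ≠ i → Ψ.1 j = Φ.1 j

/-- The face poset of a polytope: `F` is the poset of all nonempty faces (the polytope itself
included as `⊤`), `dim` the dimension. -/
structure Poly where
  F : Type
  [po : PartialOrder F]
  [top : OrderTop F]
  dim : ℕ

attribute [instance] Poly.po Poly.top

namespace Poly

/-- the flag system of a polytope: its nonempty proper faces are the faces other than `⊤` -/
def system (P : Poly) : FlagSystem.{0, 0} P.dim := ofPoset {f : P.F // f ≠ ⊤} P.dim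

/-- Cartesian product: the nonempty faces of `P × Q` are the products `f × g` of nonempty
faces. -/
def prod (P Q : Poly) : Poly where
  F := P.F × Q.F
  dim := P.dim + Q.dim

end Poly

/-- vertices of the `n`-crosspolytope `conv {±e₁, …, ±e_n}`: the integer `z` stands for
`e_z` if `z > 0` and for `-e_{-z}` if `z < 0` -/
noncomputable def crossVerts (n : ℕ) : Finset ℤ := (Finset.Icc (-(n : ℤ)) n).erase 0

/-- `A` is the vertex set of a nonempty face of the `n`-crosspolytope: all vertices, or a
nonempty set of vertices without opposite ones. -/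
def IsCrossFace (n : ℕ) (A : Finset ℤ) : Prop :=
  A.Nonempty ∧ A ⊆ crossVerts n ∧ (A = crossVerts n ∨ ∀ z ∈ A, -z ∉ A)

/-- The `n`-crosspolytope, `n ≥ 1` (we write `n + 1` for its dimension). For dimension one it is
the segment. -/
noncomputable def crossPoly (n : ℕ) : Poly where
  F := {A : Finset ℤ // IsCrossFace (n + 1) A}
  top :=
    { top := ⟨crossVerts (n + 1), ⟨1, by simp [crossVerts]; omega⟩, subset_rfl, Or.inl rfl⟩
      le_top := fun A => A.2.2.1 }
  dim := n + 1

/-- The segment `[-1, 1]`: its nonempty faces are its end points and the segment itself. -/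
inductive SegFace | neg | pos | all
  deriving DecidableEq

instance : PartialOrder SegFace where
  le a b := a = b ∨ b = SegFace.all
  le_refl a := Or.inl rfl
  le_trans := by
    rintro a b c (rfl | rfl) (rfl | rfl) <;> simp
  le_antisymm := by
    rintro a b (rfl | rfl) (h | h) <;> simp_all

instance : OrderTop SegFace where
  top := SegFace.all
  le_top _ := Or.inr rfl

/-- The `m`-cube `[-1, 1]^m`: a nonempty face is a product of nonempty faces of the segments. -/
def cubePoly (m : ℕ) : Poly where
  F := Fin m → SegFace
  dim := m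

/-- The nonempty faces of the convex `N`-gon with vertices `ZMod N` in cyclic order (`N ≥ 3`),
given by their vertex sets: vertices, edges `{i, i + 1}`, and the polygon. -/
def gonPoly (N : ℕ) [NeZero N] : Poly where
  F := {A : Finset (ZMod N) // (∃ i, A = {i}) ∨ (∃ i, A = {i, i + 1}) ∨ A = Finset.univ}
  top :=
    { top := ⟨Finset.univ, Or.inr (Or.inr rfl)⟩
      le_top := fun A => Finset.subset_univ A.1 }
  dim := 2

/-- The Cartesian products of cubes and crosspolytopes. -/
inductive CubeCrossProduct : Poly → Prop
  | cube (m : ℕ) : CubeCrossProduct (cubePoly m)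
  | cross (n : ℕ) : CubeCrossProduct (crossPoly n)
  | prod {P Q : Poly} : CubeCrossProduct P → CubeCrossProduct Q → CubeCrossProduct (P.prod Q)

end Pool.Agent.Q238.PT
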