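import Mathlib
import Pool.Agent.Q238.PT.Defs

/-!
# The arrays of faces of a Petrie scheme in a product of crosspolytopes
-/

namespace Pool.Agent.Q238.PT

open Finset

noncomputable def crk (n : ℕ) (A : Finset ℤ) : ℕ := if A = crossVerts n then n else A.card - 1

lemma mem_crossVerts {n : ℕ} {z : ℤ} : z ∈ crossVerts n ↔ z ≠ 0 ∧ -(n : ℤ) ≤ z ∧ z ≤ n := by
  simp [crossVerts]

lemma natAbs_injOn {A : Finset ℤ} (h : ∀ z ∈ A, -z ∉ A) :
    Set.InjOn Int.natAbs (A : Set ℤ) := by
  intro x hx y hy hxy
  rcases Int.natAbs_eq_natAbs_iff.1 hxy with h1 | h1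
  · exact h1
  · exfalso
    subst h1
    exact h y hy hx

lemma card_le_of_noanti {n : ℕ} {A : Finset ℤ} (hs : A ⊆ crossVerts n) (h : ∀ z ∈ A, -z ∉ A) :
    A.card ≤ n := by
  have h1 : A.card ≤ (Finset.Icc 1 n).card := by
    apply Finset.card_le_card_of_injOn Int.natAbs
    · intro z hz
      have := mem_crossVerts.1 (hs hz)
      simp only [coe_Icc, Set.mem_Icc]
      omega
    · exact natAbs_injOn h
  simpa using h1

lemma exists_of_card_eq {n : ℕ} {A : Finset ℤ} (hs : A ⊆ crossVerts n) (h : ∀ z ∈ A, -z ∉ A)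
    (hc : A.card = n) {a : ℤ} (ha : a ∈ crossVerts n) : a ∈ A ∨ -a ∈ A := by
  have hsub : A.image Int.natAbs ⊆ Finset.Icc 1 n := by
    intro k hk
    rw [Finset.mem_image] at hk
    obtain ⟨z, hz, rfl⟩ := hk
    have := mem_crossVerts.1 (hs hz)
    rw [Finset.mem_Icc]
    omega
  have hcard : (A.image Int.natAbs).card = n := by
    rw [Finset.card_image_of_injOn (natAbs_injOn h), hc]
  have heq : A.image Int.natAbs = Finset.Icc 1 n := by
    apply Finset.eq_of_subset_of_card_le hsub
    rw [hcard]; simp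
  have hmem : a.natAbs ∈ A.image Int.natAbs := by
    rw [heq, Finset.mem_Icc]
    have := mem_crossVerts.1 ha
    omega
  rw [Finset.mem_image] at hmem
  obtain ⟨z, hz, hza⟩ := hmem
  rcases Int.natAbs_eq_natAbs_iff.1 hza with h1 | h1
  · left; rwa [← h1]
  · right; rwa [← h1]

lemma noanti {n : ℕ} {A : Finset ℤ} (hA : IsCrossFace n A) (h : A ≠ crossVerts n) :
    ∀ z ∈ A, -z ∉ A := by
  rcases hA.2.2 with h1 | h1
  · exact absurd h1 h
  · exact h1

lemma card_eq_crk {n : ℕ} {A : Finset ℤ} (hA : IsCrossFace n A) (h : A ≠ crossVerts n) :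
    A.card = crk n A + 1 := by
  have := Finset.card_pos.2 hA.1
  simp only [crk, if_neg h]
  omega

lemma crk_le {n : ℕ} {A : Finset ℤ} (hA : IsCrossFace n A) : crk n A ≤ n := by
  by_cases h : A = crossVerts n
  · simp [crk, h]
  · have h1 := card_le_of_noanti hA.2.1 (noanti hA h)
    simp only [crk, if_neg h]
    omega

lemma crk_lt {n : ℕ} {A : Finset ℤ} (hn : 1 ≤ n) (hA : IsCrossFace n A)
    (h : A ≠ crossVerts n) : crk n A < n := by
  have h1 := card_le_of_noanti hA.2.1 (noanti hA h)
  simp only [crk, if_neg h]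
  omega

lemma ne_of_crk_lt {n : ℕ} {A : Finset ℤ} (h : crk n A < n) : A ≠ crossVerts n := by
  rintro rfl
  simp [crk] at h

lemma crk_mono {n : ℕ} {A B : Finset ℤ} (_hn : 1 ≤ n) (hA : IsCrossFace n A)
    (hB : IsCrossFace n B) (hAB : A ⊆ B) : crk n A ≤ crk n B := by
  by_cases h : B = crossVerts n
  · have : crk n B = n := by simp [crk, h]
    rw [this]; exact crk_le hA
  · have hA' : A ≠ crossVerts n := by
      rintro rfl
      exact h (Finset.Subset.antisymm hB.2.1 hAB)
    have h1 := card_eq_crk hA hA'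
    have h2 := card_eq_crk hB h
    have h3 := Finset.card_le_card hAB
    omega

lemma eq_of_crk_le {n : ℕ} {A B : Finset ℤ} (hn : 1 ≤ n) (hA : IsCrossFace n A)
    (hB : IsCrossFace n B) (hAB : A ⊆ B) (h : crk n B ≤ crk n A) : A = B := by
  by_cases hB' : B = crossVerts n
  · by_contra hne
    have hA' : A ≠ crossVerts n := by
      rintro rfl
      exact hne hB'.symm
    have h1 := crk_lt hn hA hA'
    have : crk n B = n := by simp [crk, hB']
    omega
  · have hA' : A ≠ crossVerts n := by
      rintro rfl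
      exact hB' (Finset.Subset.antisymm hB.2.1 hAB)
    have h1 := card_eq_crk hA hA'
    have h2 := card_eq_crk hB hB'
    exact Finset.eq_of_subset_of_card_le hAB (by omega)

/-- the array of faces of a Petrie scheme -/
structure IsArr {J : Type} [Fintype J] (n : J → ℕ) (d : ℕ) (G : ℕ → ℤ → J → Finset ℤ) :
    Prop where
  hn : ∀ j, 1 ≤ n j
  hd : ∑ j, n j = d
  face : ∀ i ≤ d, ∀ s j, IsCrossFace (n j) (G i s j)
  rk : ∀ i ≤ d, ∀ s, ∑ j, crk (n j) (G i s j) = i
  sub0 : ∀ i < d, ∀ s j, G i s j ⊆ G (i + 1) s j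
  sub1 : ∀ i < d, ∀ s j, G i (s + 1) j ⊆ G (i + 1) s j
  ne : ∀ i < d, ∀ s, G i s ≠ G i (s + 1)

/-- number of slots of colour `j` in `[s, s + i)` -/
def cnt {J : Type} [DecidableEq J] (φ : ℤ → J) (j : J) (s : ℤ) (i : ℕ) : ℕ :=
  ∑ u ∈ range i, if φ (s + u) = j then 1 else 0

section
variable {J : Type} [DecidableEq J] (φ : ℤ → J) (j : J)

lemma cnt_zero (s : ℤ) : cnt φ j s 0 = 0 := by simp [cnt]

lemma cnt_succ (s : ℤ) (i : ℕ) :
    cnt φ j s (i + 1) = cnt φ j s i + if φ (s + i) = j then 1 else 0 := by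
  unfold cnt
  rw [Finset.sum_range_succ]

lemma cnt_add (s : ℤ) (a b : ℕ) : cnt φ j s (a + b) = cnt φ j s a + cnt φ j (s + a) b := by
  induction b with
  | zero => simp [cnt_zero]
  | succ b ih =>
    rw [← add_assoc, cnt_succ, ih, cnt_succ]
    have : s + ((a + b : ℕ) : ℤ) = s + a + b := by push_cast; ring
    rw [this]; ring

lemma cnt_succ_left (s : ℤ) (i : ℕ) :
    cnt φ j s (i + 1) = (if φ s = j then 1 else 0) + cnt φ j (s + 1) i := by
  rw [add_comm i 1, cnt_add]
  congr 1
  have := cnt_succ φ j s 0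
  rw [cnt_zero] at this
  simpa using this

lemma cnt_mono (s : ℤ) {a b : ℕ} (h : a ≤ b) : cnt φ j s a ≤ cnt φ j s b := by
  obtain ⟨c, rfl⟩ := Nat.exists_eq_add_of_le h
  rw [cnt_add]; omega

lemma cnt_congr {s t : ℤ} (h : ∀ u : ℕ, φ (s + u) = φ (t + u)) (i : ℕ) :
    cnt φ j s i = cnt φ j t i := by
  simp [cnt, h]

lemma exists_first (s : ℤ) (m : ℕ) (h : 1 ≤ cnt φ j s m) :
    ∃ u < m, φ (s + u) = j ∧ cnt φ j s u = 0 := by
  induction m with
  | zero => simp [cnt_zero] at h
  | succ m ih =>
    by_cases h1 : 1 ≤ cnt φ j s m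
    · obtain ⟨u, hu, h2⟩ := ih h1
      exact ⟨u, by omega, h2⟩
    · refine ⟨m, by omega, ?_, by omega⟩
      rw [cnt_succ] at h
      by_contra h3
      rw [if_neg h3] at h
      omega

lemma exists_last (t : ℤ) (ht : φ t = j) (m : ℕ) :
    ∃ u ≤ m, φ (t + u) = j ∧ cnt φ j (t + u + 1) (m - u) = 0 := by
  induction m with
  | zero => exact ⟨0, le_rfl, by simpa using ht, by simp [cnt_zero]⟩
  | succ m ih =>
    by_cases h1 : φ (t + ((m + 1 : ℕ) : ℤ)) = j
    · exact ⟨m + 1, le_rfl, h1, by simp [cnt_zero]⟩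
    · obtain ⟨u, hu, h2, h3⟩ := ih
      refine ⟨u, by omega, h2, ?_⟩
      rw [show m + 1 - u = (m - u) + 1 by omega, cnt_succ, h3]
      have : t + (u : ℤ) + 1 + ((m - u : ℕ) : ℤ) = t + ((m + 1 : ℕ) : ℤ) := by
        push_cast [Nat.cast_sub hu]; ring
      rw [this, if_neg h1]

end

namespace IsArr

variable {J : Type} [Fintype J] [DecidableEq J] {n : J → ℕ} {d : ℕ}
  {G : ℕ → ℤ → J → Finset ℤ}

/-- colour of a slot -/
lemma exists_color (h : IsArr n d G) (hd1 : 1 ≤ d) (s : ℤ) :
    ∃ p : J, ∀ j, crk (n j) (G 1 s j) = if p = j then 1 else 0 := by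
  have h1 := h.rk 1 hd1 s
  have h2 : ∃ p, crk (n p) (G 1 s p) ≠ 0 := by
    by_contra hcon
    push Not at hcon
    simp [hcon] at h1
  obtain ⟨p, hp⟩ := h2
  refine ⟨p, fun j => ?_⟩
  rw [← Finset.add_sum_erase _ _ (Finset.mem_univ p)] at h1
  have h3 : crk (n p) (G 1 s p) = 1 ∧ ∑ x ∈ Finset.univ.erase p, crk (n x) (G 1 s x) = 0 := by
    omega
  by_cases hj : p = j
  · subst hj; simp [h3.1]
  · rw [if_neg hj]
    have := (Finset.sum_eq_zero_iff.1 h3.2) j (by simp; exact fun e => hj e.symm)
    exact this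

end IsArr

/-- array with colours and vertices -/
structure IsCol {J : Type} [Fintype J] [DecidableEq J] (n : J → ℕ) (d : ℕ)
    (G : ℕ → ℤ → J → Finset ℤ) (φ : ℤ → J) (v : ℤ → J → ℤ) : Prop extends IsArr n d G where
  hd1 : 1 ≤ d
  col : ∀ s j, crk (n j) (G 1 s j) = if φ s = j then 1 else 0
  vert : ∀ s j, G 0 s j = {v s j}

lemma IsArr.exists_col {J : Type} [Fintype J] [DecidableEq J] {n : J → ℕ} {d : ℕ}
    {G : ℕ → ℤ → J → Finset ℤ} (h : IsArr n d G) (hd1 : 1 ≤ d) :
    ∃ φ v, IsCol n d G φ v := by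
  choose φ hφ using fun s => h.exists_color hd1 s
  have h0 : ∀ s j, ∃ v, G 0 s j = {v} := by
    intro s j
    have h1 := h.rk 0 (by omega) s
    have h2 : crk (n j) (G 0 s j) = 0 := Finset.sum_eq_zero_iff.1 h1 j (Finset.mem_univ j)
    have hf := h.face 0 (by omega) s j
    have hne : G 0 s j ≠ crossVerts (n j) := ne_of_crk_lt (by rw [h2]; exact h.hn j)
    have h3 := card_eq_crk hf hne
    rw [h2] at h3
    exact Finset.card_eq_one.1 h3
  choose v hv using h0
  exact ⟨φ, v, h, hd1, hφ, hv⟩

namespace IsCol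

variable {J : Type} [Fintype J] [DecidableEq J] {n : J → ℕ} {d : ℕ}
  {G : ℕ → ℤ → J → Finset ℤ} {φ : ℤ → J} {v : ℤ → J → ℤ}

lemma rk0 (h : IsCol n d G φ v) (s : ℤ) (j : J) : crk (n j) (G 0 s j) = 0 :=
  Finset.sum_eq_zero_iff.1 (h.rk 0 (by omega) s) j (Finset.mem_univ j)

/-- passing a slot of another colour -/
lemma key (h : IsCol n d G φ v) (i : ℕ) (hi : i + 1 < d)
    (C0 : ∀ s j, crk (n j) (G i s j) = cnt φ j s i)
    (C1 : ∀ s j, crk (n j) (G (i + 1) s j) = cnt φ j s (i + 1)) (s : ℤ) (j : J)
    (h1 : φ s = j) (h2 : φ (s + ((i + 1 : ℕ) : ℤ)) = j) :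
    G (i + 1) s j ≠ G (i + 1) (s + 1) j := by
  intro heq
  apply h.ne (i + 1) hi s
  funext k
  by_cases hk : j = k
  · subst hk; exact heq
  · have e1 : G i (s + 1) k = G (i + 1) s k := by
      apply eq_of_crk_le (h.hn k) (h.face i (by omega) _ _) (h.face (i + 1) (by omega) _ _)
        (h.sub1 i (by omega) s k)
      rw [C0, C1, cnt_succ_left, h1, if_neg hk]; omega
    have e2 : G i (s + 1) k = G (i + 1) (s + 1) k := by
      apply eq_of_crk_le (h.hn k) (h.face i (by omega) _ _) (h.face (i + 1) (by omega) _ _)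
        (h.sub0 i (by omega) (s + 1) k)
      rw [C0, C1, cnt_succ]
      have : s + 1 + (i : ℤ) = s + ((i + 1 : ℕ) : ℤ) := by push_cast; ring
      rw [this, h2, if_neg hk]; omega
    rw [← e1, ← e2]

lemma sum_color (p : J) : ∑ j, (if p = j then 1 else 0 : ℕ) = 1 := by
  simp

lemma crk_eq_cnt (h : IsCol n d G φ v) : ∀ i ≤ d, ∀ s j, crk (n j) (G i s j) = cnt φ j s i := by
  intro i
  induction i using Nat.strong_induction_on with
  | _ i ih =>
    intro hi s j
    match i, ih, hi with
    | 0, _, _ => rw [h.rk0, cnt_zero]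
    | 1, _, _ => rw [h.col, cnt_succ, cnt_zero]; simp
    | i + 2, ih, hi =>
      have C0 := ih i (by omega) (by omega)
      have C1 := ih (i + 1) (by omega) (by omega)
      have hcount : ∀ k, cnt φ k s (i + 2) = (if φ s = k then 1 else 0) + cnt φ k (s + 1) i +
          (if φ (s + ((i + 1 : ℕ) : ℤ)) = k then 1 else 0) := by
        intro k
        rw [show i + 2 = (i + 1) + 1 from rfl, cnt_succ, cnt_succ_left]
      have hle : ∀ k ∈ Finset.univ, cnt φ k s (i + 2) ≤ crk (n k) (G (i + 2) s k) := by
        intro k _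
        have m0 : crk (n k) (G (i + 1) s k) ≤ crk (n k) (G (i + 2) s k) :=
          crk_mono (h.hn k) (h.face (i + 1) (by omega) _ _) (h.face (i + 2) hi _ _)
            (h.sub0 (i + 1) (by omega) s k)
        have m1 : crk (n k) (G (i + 1) (s + 1) k) ≤ crk (n k) (G (i + 2) s k) :=
          crk_mono (h.hn k) (h.face (i + 1) (by omega) _ _) (h.face (i + 2) hi _ _)
            (h.sub1 (i + 1) (by omega) s k)
        rw [C1, cnt_succ_left] at m0
        rw [C1, cnt_succ] at m1
        have e3 : s + 1 + (i : ℤ) = s + ((i + 1 : ℕ) : ℤ) := by push_cast; ring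
        rw [e3] at m1
        rw [hcount]
        by_cases p1 : φ s = k
        · by_cases p2 : φ (s + ((i + 1 : ℕ) : ℤ)) = k
          · rw [if_pos p1, if_pos p2]
            rw [if_pos p1] at m0
            rw [if_pos p2] at m1
            by_contra hlt
            have heq0 : G (i + 1) s k = G (i + 2) s k := by
              apply eq_of_crk_le (h.hn k) (h.face (i + 1) (by omega) _ _)
                (h.face (i + 2) hi _ _) (h.sub0 (i + 1) (by omega) s k)
              rw [C1, cnt_succ_left, if_pos p1]; omega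
            have heq1 : G (i + 1) (s + 1) k = G (i + 2) s k := by
              apply eq_of_crk_le (h.hn k) (h.face (i + 1) (by omega) _ _)
                (h.face (i + 2) hi _ _) (h.sub1 (i + 1) (by omega) s k)
              rw [C1, cnt_succ, e3, if_pos p2]; omega
            exact h.key i (by omega) C0 C1 s k p1 p2 (heq0.trans heq1.symm)
          · rw [if_pos p1, if_neg p2]
            rw [if_pos p1] at m0
            omega
        · rw [if_neg p1]
          omega
      have hs1 : ∑ k, cnt φ k s (i + 2) = ∑ k, crk (n k) (G (i + 2) s k) := by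
        rw [h.rk (i + 2) hi s]
        simp_rw [hcount]
        rw [Finset.sum_add_distrib, Finset.sum_add_distrib, sum_color, sum_color]
        have : ∑ k, cnt φ k (s + 1) i = i := by
          have := h.rk i (by omega) (s + 1)
          simp_rw [C0] at this
          exact this
        rw [this]; omega
      exact ((Finset.sum_eq_sum_iff_of_le hle).1 hs1 j (Finset.mem_univ j)).symm

lemma ne_face (h : IsCol n d G φ v) (i : ℕ) (hi : i < d) (s : ℤ) (j : J)
    (h1 : φ s = j) (h2 : φ (s + (i : ℤ)) = j) : G i s j ≠ G i (s + 1) j := by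
  cases i with
  | zero =>
    intro heq
    apply h.ne 0 hi s
    funext k
    by_cases hk : j = k
    · subst hk; exact heq
    · have hr : crk (n k) (G 1 s k) = 0 := by rw [h.col, h1, if_neg hk]
      have e1 : G 0 s k = G 1 s k := by
        apply eq_of_crk_le (h.hn k) (h.face 0 (by omega) _ _) (h.face 1 (by omega) _ _)
          (h.sub0 0 hi s k)
        rw [hr]; omega
      have e2 : G 0 (s + 1) k = G 1 s k := by
        apply eq_of_crk_le (h.hn k) (h.face 0 (by omega) _ _) (h.face 1 (by omega) _ _)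
          (h.sub1 0 hi s k)
        rw [hr]; omega
      rw [e1, e2]
  | succ i =>
    exact h.key i hi (h.crk_eq_cnt i (by omega)) (h.crk_eq_cnt (i + 1) (by omega)) s j h1 h2

lemma cnt_d (h : IsCol n d G φ v) (s : ℤ) (j : J) : cnt φ j s d = n j := by
  have h1 := h.rk d le_rfl s
  have h2 : ∑ k, crk (n k) (G d s k) = ∑ k, n k := by rw [h1, h.hd]
  have h3 := (Finset.sum_eq_sum_iff_of_le
    (fun k _ => crk_le (h.face d le_rfl s k))).1 h2 j (Finset.mem_univ j)
  rw [← h.crk_eq_cnt d le_rfl, h3]

lemma col_per (h : IsCol n d G φ v) (s : ℤ) : φ (s + d) = φ s := by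
  have h1 := cnt_succ φ (φ s) s d
  rw [cnt_succ_left, h.cnt_d, h.cnt_d, if_pos rfl] at h1
  by_contra h2
  rw [if_neg h2] at h1
  omega

lemma cnt_per (h : IsCol n d G φ v) (j : J) (s : ℤ) (i : ℕ) :
    cnt φ j (s + d) i = cnt φ j s i := by
  apply cnt_congr
  intro u
  rw [show s + (d : ℤ) + u = (s + u) + d by ring, h.col_per]

/-- the vertices of a proper component -/
lemma face_eq (h : IsCol n d G φ v) : ∀ i ≤ d, ∀ s j, cnt φ j s i < n j →
    G i s j = (range (i + 1)).image (fun u : ℕ => v (s + u) j) := by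
  intro i
  induction i with
  | zero => intro _ s j _; simp [h.vert]
  | succ i ih =>
    intro hi s j hlt
    have hl0 : cnt φ j s i < n j := lt_of_le_of_lt (cnt_mono φ j s (by omega)) hlt
    have hl1 : cnt φ j (s + 1) i < n j := by
      rw [cnt_succ_left] at hlt; omega
    have I0 := ih (by omega) s j hl0
    have I1 := ih (by omega) (s + 1) j hl1
    have hU : (range (i + 1 + 1)).image (fun u : ℕ => v (s + u) j) =
        G i s j ∪ G i (s + 1) j := by
      rw [I0, I1]
      ext z
      simp only [Finset.mem_image, Finset.mem_union, Finset.mem_range]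
      constructor
      · rintro ⟨u, hu, rfl⟩
        by_cases hu' : u < i + 1
        · exact Or.inl ⟨u, hu', rfl⟩
        · refine Or.inr ⟨i, by omega, ?_⟩
          have : u = i + 1 := by omega
          subst this
          congr 1
          push_cast; ring
      · rintro (⟨u, hu, rfl⟩ | ⟨u, hu, rfl⟩)
        · exact ⟨u, by omega, rfl⟩
        · refine ⟨u + 1, by omega, ?_⟩
          congr 1
          push_cast; ring
    rw [hU]
    have hf0 := h.face i (by omega) s j
    have hf1 := h.face i (by omega) (s + 1) j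
    have hf := h.face (i + 1) hi s j
    have s0 := h.sub0 i (by omega) s j
    have s1 := h.sub1 i (by omega) s j
    have c0 := h.crk_eq_cnt i (by omega) s j
    have c1 := h.crk_eq_cnt i (by omega) (s + 1) j
    have c := h.crk_eq_cnt (i + 1) hi s j
    apply Finset.Subset.antisymm _ (Finset.union_subset s0 s1)
    by_cases p2 : φ (s + (i : ℤ)) = j
    · by_cases p1 : φ s = j
      · have hne := h.ne_face i (by omega) s j p1 p2
        have k0 := card_eq_crk hf0 (ne_of_crk_lt (by rw [c0]; exact hl0))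
        have k1 := card_eq_crk hf1 (ne_of_crk_lt (by rw [c1]; exact hl1))
        have k := card_eq_crk hf (ne_of_crk_lt (by rw [c]; exact hlt))
        have hss : G i s j ⊂ G i s j ∪ G i (s + 1) j := by
          rw [Finset.ssubset_iff_subset_ne]
          refine ⟨Finset.subset_union_left, fun e => hne ?_⟩
          have hsub : G i (s + 1) j ⊆ G i s j := by
            rw [e]; exact Finset.subset_union_right
          symm
          apply Finset.eq_of_subset_of_card_le hsub
          rw [k0, k1, c0, c1]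
          have e1 := cnt_succ φ j s i
          rw [cnt_succ_left, if_pos p1, if_pos p2] at e1
          omega
        have hlt2 := Finset.card_lt_card hss
        have : G i s j ∪ G i (s + 1) j = G (i + 1) s j := by
          apply Finset.eq_of_subset_of_card_le (Finset.union_subset s0 s1)
          rw [k, c, cnt_succ, if_pos p2]
          rw [k0, c0] at hlt2
          omega
        rw [this]
      · have : G i (s + 1) j = G (i + 1) s j := by
          apply eq_of_crk_le (h.hn j) hf1 hf s1
          rw [c, c1, cnt_succ_left, if_neg p1]; omega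
        rw [← this]; exact Finset.subset_union_right
    · have : G i s j = G (i + 1) s j := by
        apply eq_of_crk_le (h.hn j) hf0 hf s0
        rw [c, c0, cnt_succ, if_neg p2]; omega
      rw [← this]; exact Finset.subset_union_left

lemma vert_step (h : IsCol n d G φ v) (s : ℤ) (j : J) (hs : φ s ≠ j) : v (s + 1) j = v s j := by
  have hr : crk (n j) (G 1 s j) = 0 := by rw [h.col, if_neg hs]
  have hd1 := h.hd1
  have e1 : G 0 s j = G 1 s j := by
    apply eq_of_crk_le (h.hn j) (h.face 0 (by omega) _ _) (h.face 1 (by omega) _ _)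
      (h.sub0 0 (by omega) s j)
    rw [hr]; omega
  have e2 : G 0 (s + 1) j = G 1 s j := by
    apply eq_of_crk_le (h.hn j) (h.face 0 (by omega) _ _) (h.face 1 (by omega) _ _)
      (h.sub1 0 (by omega) s j)
    rw [hr]; omega
  have e3 := e2.trans e1.symm
  rw [h.vert, h.vert, Finset.singleton_inj] at e3
  exact e3

lemma vert_const (h : IsCol n d G φ v) (s : ℤ) (j : J) (u : ℕ) (hu : cnt φ j s u = 0) :
    v (s + u) j = v s j := by
  induction u with
  | zero => simp
  | succ u ih =>
    rw [cnt_succ] at hu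
    have h1 : cnt φ j s u = 0 := by omega
    have h2 : φ (s + (u : ℤ)) ≠ j := by
      intro e
      rw [if_pos e] at hu
      omega
    have := h.vert_step (s + u) j h2
    rw [← ih h1, ← this]
    congr 1
    push_cast; ring

lemma vert_mem (h : IsCol n d G φ v) (s : ℤ) (j : J) : v s j ∈ crossVerts (n j) := by
  apply (h.face 0 (by omega) s j).2.1
  rw [h.vert]; simp

lemma anti0 (h : IsCol n d G φ v) (t : ℤ) (j : J) (ht : φ t = j) : v (t + d) j = -v t j := by
  have hd1 := h.hd1
  obtain ⟨u, hu, hu1, hu2⟩ := exists_last φ j t ht (d - 1)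
  have hcd := h.cnt_d t j
  have hsplit := cnt_add φ j t (u + 1) (d - 1 - u)
  rw [show u + 1 + (d - 1 - u) = d by omega, hcd] at hsplit
  have hcast : t + ((u + 1 : ℕ) : ℤ) = t + u + 1 := by push_cast; ring
  rw [hcast, hu2, cnt_succ, if_pos hu1] at hsplit
  have hl := cnt_succ_left φ j t u
  rw [cnt_succ, if_pos hu1, if_pos ht] at hl
  have hnj := h.hn j
  have hA : G u t j = (range (u + 1)).image (fun w : ℕ => v (t + w) j) :=
    h.face_eq u (by omega) t j (by omega)
  have hB : G u (t + 1) j = (range (u + 1)).image (fun w : ℕ => v (t + 1 + w) j) :=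
    h.face_eq u (by omega) (t + 1) j (by omega)
  have cA := h.crk_eq_cnt u (by omega) t j
  have cB := h.crk_eq_cnt u (by omega) (t + 1) j
  have nA : G u t j ≠ crossVerts (n j) := ne_of_crk_lt (by rw [cA]; omega)
  have nB : G u (t + 1) j ≠ crossVerts (n j) := ne_of_crk_lt (by rw [cB]; omega)
  have fA := h.face u (by omega) t j
  have fB := h.face u (by omega) (t + 1) j
  have kA := card_eq_crk fA nA
  have kB := card_eq_crk fB nB
  have hAB := h.ne_face u (by omega) t j ht hu1
  have hlast : v (t + d) j = v (t + u + 1) j := by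
    have := h.vert_const (t + u + 1) j (d - 1 - u) hu2
    rw [← this]
    congr 1
    push_cast [Nat.cast_sub hu, Nat.cast_sub hd1]; ring
  rw [hlast]
  have ha : v t j ∈ G u t j := by
    rw [hA]; exact Finset.mem_image.2 ⟨0, by simp, by simp⟩
  rcases exists_of_card_eq fB.2.1 (noanti fB nB) (by rw [kB, cB]; omega) (h.vert_mem t j)
    with hz | hz
  · exfalso
    apply hAB
    apply Finset.eq_of_subset_of_card_le
    · intro z hzA
      rw [hA, Finset.mem_image] at hzA
      obtain ⟨w, hw, rfl⟩ := hzA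
      rw [Finset.mem_range] at hw
      cases w with
      | zero => simpa using hz
      | succ w =>
        rw [hB, Finset.mem_image]
        refine ⟨w, by rw [Finset.mem_range]; omega, ?_⟩
        congr 1
        push_cast; ring
    · rw [kA, kB, cA, cB]; omega
  · have hnA : -v t j ∉ G u t j := noanti fA nA _ ha
    rw [hB, Finset.mem_image] at hz
    obtain ⟨w, hw, hwz⟩ := hz
    rw [Finset.mem_range] at hw
    by_cases hwu : w = u
    · subst hwu
      rw [← hwz]
      congr 1
      ring
    · exfalso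
      apply hnA
      rw [hA, Finset.mem_image]
      refine ⟨w + 1, by rw [Finset.mem_range]; omega, ?_⟩
      rw [← hwz]
      congr 1
      push_cast; ring

lemma anti (h : IsCol n d G φ v) (s : ℤ) (j : J) : v (s + d) j = -v s j := by
  obtain ⟨u, hu, hu1, hu2⟩ := exists_first φ j s d (by rw [h.cnt_d]; exact h.hn j)
  have h1 := h.vert_const s j u hu2
  have h2 := h.vert_const (s + d) j u (by rw [h.cnt_per]; exact hu2)
  have h3 := h.anti0 (s + u) j hu1
  rw [← h1, ← h2, ← h3]
  congr 1
  ring

lemma cnt_le (h : IsCol n d G φ v) (s : ℤ) (j : J) {w : ℕ} (hw : w ≤ d) :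
    cnt φ j s w ≤ n j := by
  rw [← h.cnt_d s j]; exact cnt_mono φ j s hw

/-- the vertices of one colour within `2 n_j - 1` slots of that colour are different -/
lemma vert_ne (h : IsCol n d G φ v) (s : ℤ) (j : J) (w : ℕ) (h1 : 1 ≤ cnt φ j s w)
    (h2 : cnt φ j s w ≤ 2 * n j - 1) : v (s + w) j ≠ v s j := by
  have hnj := h.hn j
  have hv0 : v s j ≠ 0 := (mem_crossVerts.1 (h.vert_mem s j)).1
  -- no opposite vertices within a proper face
  have Y1 : ∀ w ≤ d, cnt φ j s w < n j → v (s + w) j ≠ -v s j := by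
    intro w hw hc e
    have hA := h.face_eq w hw s j hc
    have cA := h.crk_eq_cnt w hw s j
    have nA : G w s j ≠ crossVerts (n j) := ne_of_crk_lt (by rw [cA]; omega)
    apply noanti (h.face w hw s j) nA (v s j)
    · rw [hA]; exact Finset.mem_image.2 ⟨0, by simp, by simp⟩
    · rw [hA, ← e]; exact Finset.mem_image.2 ⟨w, by simp, rfl⟩
  by_cases hwd : w ≤ d
  · rcases Nat.lt_or_ge (cnt φ j s w) (n j) with hc | hc
    · obtain ⟨u, hu, hu1, hu2⟩ := exists_first φ j s w h1
      intro e
      have hvu := h.vert_const s j u hu2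
      have hadd := cnt_add φ j s u (w - u)
      rw [show u + (w - u) = w by omega, hu2] at hadd
      obtain ⟨m, hm⟩ : ∃ m, w - u = m + 1 := ⟨w - u - 1, by omega⟩
      rw [hm] at hadd
      have hleft := cnt_succ_left φ j (s + u) m
      rw [if_pos hu1] at hleft
      have hA := h.face_eq (m + 1) (by omega) (s + u) j (by omega)
      have hB := h.face_eq m (by omega) (s + u + 1) j (by omega)
      have cA := h.crk_eq_cnt (m + 1) (by omega) (s + u) j
      have cB := h.crk_eq_cnt m (by omega) (s + u + 1) j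
      have nA : G (m + 1) (s + u) j ≠ crossVerts (n j) := ne_of_crk_lt (by rw [cA]; omega)
      have nB : G m (s + u + 1) j ≠ crossVerts (n j) := ne_of_crk_lt (by rw [cB]; omega)
      have kA := card_eq_crk (h.face (m + 1) (by omega) (s + u) j) nA
      have kB := card_eq_crk (h.face m (by omega) (s + u + 1) j) nB
      have hsub : G (m + 1) (s + u) j ⊆ G m (s + u + 1) j := by
        intro z hz
        rw [hA, Finset.mem_image] at hz
        obtain ⟨q, hq, rfl⟩ := hz
        rw [Finset.mem_range] at hq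
        rw [hB, Finset.mem_image]
        cases q with
        | zero =>
          refine ⟨m, by simp, ?_⟩
          have : s + (u : ℤ) + 1 + (m : ℤ) = s + w := by
            have : (w : ℤ) = u + (m + 1) := by
              have : w = u + (m + 1) := by omega
              rw [this]; push_cast; ring
            rw [this]; ring
          rw [this, e, ← hvu]
          simp
        | succ q =>
          refine ⟨q, by rw [Finset.mem_range]; omega, ?_⟩
          congr 1
          push_cast; ring
      have := Finset.card_le_card hsub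
      omega
    · have hle := h.cnt_le s j hwd
      have hadd := cnt_add φ j s w (d - w)
      rw [show w + (d - w) = d by omega, h.cnt_d] at hadd
      have hc0 : cnt φ j (s + w) (d - w) = 0 := by omega
      have := h.vert_const (s + w) j (d - w) hc0
      have e1 : s + (w : ℤ) + ((d - w : ℕ) : ℤ) = s + d := by
        push_cast [Nat.cast_sub hwd]; ring
      rw [e1, h.anti] at this
      intro e
      rw [e] at this
      omega
  · obtain ⟨w', rfl⟩ : ∃ w', w = d + w' := ⟨w - d, by omega⟩
    rw [cnt_add, h.cnt_d, h.cnt_per] at h1 h2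
    have hlt : cnt φ j s w' < n j := by omega
    have hw'd : w' ≤ d := by
      by_contra hcon
      have := cnt_mono φ j s (show d ≤ w' by omega)
      rw [h.cnt_d] at this
      omega
    have e1 : s + ((d + w' : ℕ) : ℤ) = (s + w') + d := by push_cast; ring
    rw [e1, h.anti]
    intro e
    apply Y1 w' hw'd hlt
    omega

/-- within `d` steps no face is repeated -/
lemma no_repeat (h : IsCol n d G φ v) (i : ℕ) (hi : i < d) (s : ℤ) (L : ℕ) (hL1 : 1 ≤ L)
    (hL : L ≤ d) : G i s ≠ G i (s + L) := by
  intro heq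
  set p := φ (s + i) with hp
  have c1 : cnt φ p s (i + 1) = cnt φ p s i + 1 := by rw [cnt_succ, if_pos rfl]
  have c2 := h.cnt_le s p (show i + 1 ≤ d by omega)
  have e1 : cnt φ p s i = cnt φ p (s + L) i := by
    rw [← h.crk_eq_cnt i (by omega), ← h.crk_eq_cnt i (by omega), heq]
  have a1 := cnt_add φ p s i L
  have a2 := cnt_add φ p s L i
  rw [add_comm L i] at a2
  have hM : 1 ≤ cnt φ p (s + i) L := by
    have hc1 := cnt_succ φ p (s + i) 0
    rw [cnt_zero] at hc1
    simp only [Nat.cast_zero, add_zero, zero_add, ← hp, if_true] at hc1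
    calc 1 ≤ cnt φ p (s + i) 1 := by rw [hc1]
      _ ≤ _ := cnt_mono φ p _ hL1
  have hM2 := h.cnt_le s p hL
  have hmem : v s p ∈ G i (s + L) p := by
    rw [← heq, h.face_eq i (by omega) s p (by omega)]
    exact Finset.mem_image.2 ⟨0, by simp, by simp⟩
  rw [h.face_eq i (by omega) (s + L) p (by omega), Finset.mem_image] at hmem
  obtain ⟨u, hu, hu2⟩ := hmem
  rw [Finset.mem_range] at hu
  have a3 := cnt_add φ p s L u
  have a4 := cnt_mono φ p (s + L) (show u ≤ i by omega)
  apply h.vert_ne s p (L + u) (by omega) (by omega)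
  rw [← hu2]
  congr 1
  push_cast; ring

lemma period (h : IsCol n d G φ v) (i : ℕ) (hi : i ≤ d) :
    Function.Periodic (G i) ((2 * d : ℕ) : ℤ) := by
  intro s
  funext j
  have hv : ∀ s, v (s + ((2 * d : ℕ) : ℤ)) j = v s j := by
    intro s
    have : s + ((2 * d : ℕ) : ℤ) = s + d + d := by push_cast; ring
    rw [this, h.anti, h.anti, neg_neg]
  have hc : cnt φ j (s + ((2 * d : ℕ) : ℤ)) i = cnt φ j s i := by
    have : s + ((2 * d : ℕ) : ℤ) = s + d + d := by push_cast; ring
    rw [this, h.cnt_per, h.cnt_per]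
  rcases Nat.lt_or_ge (cnt φ j s i) (n j) with hlt | hge
  · rw [h.face_eq i hi s j hlt, h.face_eq i hi _ j (by rw [hc]; exact hlt)]
    apply Finset.image_congr
    intro u _
    show v (s + ((2 * d : ℕ) : ℤ) + u) j = v (s + u) j
    rw [← hv (s + u)]
    congr 1
    ring
  · have key : ∀ s, n j ≤ cnt φ j s i → G i s j = crossVerts (n j) := by
      intro s hs
      by_contra hne
      have := crk_lt (h.hn j) (h.face i hi s j) hne
      rw [h.crk_eq_cnt i hi] at this
      omega
    rw [key s hge, key _ (by rw [hc]; exact hge)]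

end IsCol

/-- The faces of rank `i < d` in the array are repeated with period exactly `2 d`. -/
theorem IsArr.main {J : Type} [Fintype J] [DecidableEq J] {n : J → ℕ} {d : ℕ}
    {G : ℕ → ℤ → J → Finset ℤ} (h : IsArr n d G) {i : ℕ} (hi : i < d) {s t : ℤ}
    (heq : G i s = G i t) : ∀ k ≤ d, ∀ a, G k (a + (s - t)) = G k a := by
  obtain ⟨φ, v, hc⟩ := h.exists_col (by omega)
  have hper := hc.period i (by omega)
  have hdpos : (0 : ℤ) < ((2 * d : ℕ) : ℤ) := by
    have : 0 < 2 * d := by omega
    exact_mod_cast this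
  have hdvd : (((2 * d : ℕ) : ℤ)) ∣ s - t := by
    have hr0 := Int.emod_nonneg (s - t) hdpos.ne'
    have hr1 := Int.emod_lt_of_pos (s - t) hdpos
    have hdecomp := Int.emod_add_mul_ediv (s - t) ((2 * d : ℕ) : ℤ)
    set r := (s - t) % ((2 * d : ℕ) : ℤ) with hr
    set q := (s - t) / ((2 * d : ℕ) : ℤ) with hq
    have hG : G i (t + r) = G i t := by
      rw [← heq]
      have := hper.int_mul q (t + r)
      rw [← this]
      congr 1
      rw [mul_comm] at hdecomp
      rw [Int.cast_id]
      linarith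
    by_cases h0 : r = 0
    · exact Int.dvd_of_emod_eq_zero h0
    · exfalso
      have hrpos : 0 < r := by omega
      by_cases hrd : r ≤ d
      · have := hc.no_repeat i hi t r.toNat (by omega) (by omega)
        apply this
        rw [Int.toNat_of_nonneg hr0, hG]
      · have hr1' : r < 2 * d := by exact_mod_cast hr1
        have := hc.no_repeat i hi (t + r) (2 * (d : ℤ) - r).toNat (by omega) (by omega)
        apply this
        rw [hG, Int.toNat_of_nonneg (by omega)]
        have h2 := hper t
        rw [← h2]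
        congr 1
        push_cast; ring
  obtain ⟨q, hq⟩ := hdvd
  intro k hk a
  have := (hc.period k hk).int_mul q a
  rw [← this, hq]
  congr 2
  rw [mul_comm]
  rfl

end Pool.Agent.Q238.PT
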