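import Mathlib
import Pool.Agent.Q238.PT.Defs

/-!
# Petrie schemes: definitions (uniform convex polytopes, regular star-polytopes)
-/

set_option linter.checkUnivs false

namespace Pool.Agent.Q238.PT

open scoped RealInnerProductSpace

section Convex

variable {E : Type} [NormedAddCommGroup E] [InnerProductSpace ℝ E]

/-- a convex polytope: the convex hull of a nonempty finite set -/
def IsPolytope (P : Set E) : Prop := ∃ V : Set E, V.Finite ∧ V.Nonempty ∧ P = convexHull ℝ V

/-- the dimension of a set -/
noncomputable def dim (P : Set E) : ℕ := Module.finrank ℝ (vectorSpan ℝ P)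

/-- nonempty proper (exposed) faces -/
def IsProperFace (P F : Set E) : Prop := IsExposed ℝ P F ∧ F.Nonempty ∧ F ≠ P

/-- facets: maximal proper faces -/
def IsFacet (P F : Set E) : Prop :=
  IsProperFace P F ∧ ∀ F', IsProperFace P F' → F ⊆ F' → F = F'

/-- the flag system of the face poset of a convex polytope -/
noncomputable def convexSystem (P : Set E) : FlagSystem.{0, 0} (dim P) :=
  ofPoset {F : Set E // IsProperFace P F} (dim P)

/-- a convex regular `N`-gon, `N ≥ 3`, in a plane with orthonormal directions `u`, `v` -/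
def IsRegularPolygon (P : Set E) : Prop :=
  ∃ (N : ℕ) (c u v : E) (r : ℝ), 3 ≤ N ∧ 0 < r ∧ ‖u‖ = 1 ∧ ‖v‖ = 1 ∧ ⟪u, v⟫ = 0 ∧
    P = convexHull ℝ (Set.range fun k : Fin N =>
      c + (r * Real.cos (2 * Real.pi * k / N)) • u + (r * Real.sin (2 * Real.pi * k / N)) • v)

/-- The symmetry group is transitive on the vertices. -/
def VertexTransitive (P : Set E) : Prop :=
  ∀ x ∈ P.extremePoints ℝ, ∀ y ∈ P.extremePoints ℝ, ∃ g : E ≃ᵢ E, g '' P = P ∧ g x = y

/-- Uniform convex polytopes: the regular polygons in dimension two, and in dimension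
`n + 1 ≥ 3` the vertex-transitive convex polytopes all of whose facets are uniform. -/
inductive IsUniform : ℕ → Set E → Prop
  | polygon {P : Set E} : IsRegularPolygon P → IsUniform 2 P
  | succ {n : ℕ} {P : Set E} : 2 ≤ n → IsPolytope P → dim P = n + 1 → VertexTransitive P →
      (∀ F, IsFacet P F → IsUniform n F) → IsUniform (n + 1) P

end Convex

section Group

/-- The flag system of a regular polytope given by its group `W`, generated by the
distinguished generators `r 0, …, r (n-1)`: the flags are the elements of `W`, the faces of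
rank `i` are the left cosets of `W_i = ⟨r j : j ≠ i⟩`, and `w` is `i`-adjacent to `w * r i`. -/
def ofGroup {G : Type} [Group G] {n : ℕ} (r : Fin n → G) : FlagSystem.{0, 0} n where
  Flag := Subgroup.closure (Set.range r)
  Face := fun i => G ⧸ Subgroup.closure (r '' {j | j ≠ i})
  face := fun i w => ((w : G) : G ⧸ Subgroup.closure (r '' {j | j ≠ i}))
  Adj := fun i w w' => (w' : G) = (w : G) * r i

/-- the Schläfli symbols of the regular star-polytopes: the star-polygons `{a/b}`, the four
Kepler-Poinsot polyhedra and the ten regular star-polytopes of dimension four -/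
def IsStarSymbol (p : List ℚ) : Prop :=
  (∃ a b : ℕ, Nat.Coprime a b ∧ 2 ≤ b ∧ 2 * b < a ∧ p = [(a : ℚ) / b]) ∨
  p ∈ ([[5, 5/2], [5/2, 5], [3, 5/2], [5/2, 3],
    [3, 3, 5/2], [5/2, 3, 3], [3, 5, 5/2], [5/2, 5, 3], [5, 5/2, 5], [5, 3, 5/2],
    [5/2, 3, 5], [5/2, 5, 5/2], [3, 5/2, 5], [5, 5/2, 3]] : List (List ℚ))

/-- `α 0, …, α (n-1)` are unit normals of the mirrors of the generating reflections of the
symmetry group of the regular polytope with Schläfli symbol `p = {p_1, …, p_{n-1}}`: mirrors
`i` and `i + 1` form the angle `π / p_{i+1}`, other pairs are perpendicular. -/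
structure IsMirrorSystem {E : Type} [NormedAddCommGroup E] [InnerProductSpace ℝ E]
    (p : List ℚ) (α : Fin (p.length + 1) → E) : Prop where
  unit : ∀ i, ‖α i‖ = 1
  consec : ∀ i : Fin p.length, ⟪α i.castSucc, α i.succ⟫ = -Real.cos (Real.pi / (p.get i : ℝ))
  perp : ∀ i j : Fin (p.length + 1), (i : ℕ) + 2 ≤ j → ⟪α i, α j⟫ = 0
  indep : LinearIndependent ℝ α
  span : Submodule.span ℝ (Set.range α) = ⊤

/-- the reflection in the hyperplane orthogonal to `a` -/
noncomputable def mirror {E : Type} [NormedAddCommGroup E] [InnerProductSpace ℝ E] (a : E) :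
    E ≃ₗᵢ[ℝ] E := (ℝ ∙ a)ᗮ.reflection

/-- the flag system of the regular polytope with the mirrors `α` -/
noncomputable def mirrorSystem {E : Type} [NormedAddCommGroup E] [InnerProductSpace ℝ E]
    {n : ℕ} (α : Fin n → E) : FlagSystem.{0, 0} n := ofGroup fun i => mirror (α i)

end Group

end Pool.Agent.Q238.PT
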