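import Mathlib
import Pool.Agent.Q238.PT.Array

/-!
# Products of cubes and crosspolytopes have only acoptic Petrie schemes
-/

namespace Pool.Agent.Q238.PT

open Finset

universe u

/-- the intermediate flags when one passes from `Ψ` to `Φ` along `l` -/
lemma along_spec {F : Type u} [PartialOrder F] {n : ℕ} :
    ∀ (l : List (Fin n)), l.Nodup → ∀ Ψ Φ : (ofPoset F n).Flag, (ofPoset F n).Along l Ψ Φ →
      (∀ i ∈ l, Ψ.1 i ≠ Φ.1 i) ∧ (∀ i, i ∉ l → Ψ.1 i = Φ.1 i) ∧
      ∀ t, ∃ X : (ofPoset F n).Flag, ∀ i, X.1 i = if i ∈ l.take t then Φ.1 i else Ψ.1 i := by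
  intro l
  induction l with
  | nil =>
    intro _ Ψ Φ h
    have h' : Φ = Ψ := h
    subst h'
    exact ⟨by simp, by simp, fun t => ⟨Φ, by simp⟩⟩
  | cons a l ih =>
    intro hnd Ψ Φ h
    obtain ⟨X, ⟨hX1, hX2⟩, hX3⟩ := h
    have hnd' := List.nodup_cons.1 hnd
    obtain ⟨i1, i2, i3⟩ := ih hnd'.2 X Φ hX3
    refine ⟨?_, ?_, ?_⟩
    · intro i hi
      rcases List.mem_cons.1 hi with rfl | hi'
      · rw [← i2 _ hnd'.1]; exact hX1
      · have hne : i ≠ a := by rintro rfl; exact hnd'.1 hi'
        rw [hX2 i hne]; exact i1 i hi'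
    · intro i hi
      rw [List.mem_cons, not_or] at hi
      rw [hX2 i hi.1]; exact i2 i hi.2
    · intro t
      cases t with
      | zero => exact ⟨Ψ, by simp⟩
      | succ t =>
        obtain ⟨Y, hY⟩ := i3 t
        refine ⟨Y, fun i => ?_⟩
        rw [hY, List.take_succ_cons]
        by_cases hia : i = a
        · subst hia
          rw [if_neg (fun h => hnd'.1 (List.mem_of_mem_take h)), if_pos (by simp), i2 _ hnd'.1]
        · by_cases hit : i ∈ l.take t
          · rw [if_pos hit, if_pos (List.mem_cons_of_mem _ hit)]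
          · rw [if_neg hit, if_neg (by simp [hia, hit]), hX2 i hia]

lemma mem_take_idxOf {α : Type*} [DecidableEq α] {l : List α} {a : α} (ha : a ∈ l) {t : ℕ} :
    a ∈ l.take t ↔ l.idxOf a < t := by
  induction l generalizing t with
  | nil => simp at ha
  | cons b l ih =>
    cases t with
    | zero => simp
    | succ t =>
      rw [List.take_succ_cons, List.mem_cons]
      by_cases hab : a = b
      · subst hab; simp
      · have ha' : a ∈ l := by
          rcases List.mem_cons.1 ha with h | h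
          · exact absurd h hab
          · exact h
        rw [ih ha', List.idxOf_cons_ne _ (fun e => hab e.symm)]
        simp [hab]

/-- comparison of consecutive ranks before and after one application of `γ` -/
lemma along_lt {F : Type u} [PartialOrder F] {n : ℕ} (l : List (Fin n)) (hl : l.Nodup)
    (Ψ Φ : (ofPoset F n).Flag) (h : (ofPoset F n).Along l Ψ Φ) {a b : Fin n} (hab : a < b)
    (ha : a ∈ l) (hb : b ∈ l) :
    (l.idxOf a < l.idxOf b → Φ.1 a < Ψ.1 b) ∧ (l.idxOf b < l.idxOf a → Ψ.1 a < Φ.1 b) := by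
  obtain ⟨_, _, h3⟩ := along_spec l hl Ψ Φ h
  constructor
  · intro hlt
    obtain ⟨X, hX⟩ := h3 (l.idxOf a + 1)
    have e1 := hX a
    have e2 := hX b
    rw [if_pos ((mem_take_idxOf ha).2 (by omega))] at e1
    rw [if_neg (fun h => by have := (mem_take_idxOf hb).1 h; omega)] at e2
    rw [← e1, ← e2]
    exact X.2 hab
  · intro hlt
    obtain ⟨X, hX⟩ := h3 (l.idxOf b + 1)
    have e1 := hX a
    have e2 := hX b
    rw [if_neg (fun h => by have := (mem_take_idxOf ha).1 h; omega)] at e1
    rw [if_pos ((mem_take_idxOf hb).2 (by omega))] at e2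
    rw [← e1, ← e2]
    exact X.2 hab

/-- embedding of the face poset in a product of crosspolytopes of the same dimension -/
structure Emb (P : Poly) (J : Type) [Fintype J] (n : J → ℕ) (e : P.F → J → Finset ℤ) :
    Prop where
  hn : ∀ j, 1 ≤ n j
  dim : ∑ j, n j = P.dim
  face : ∀ f j, IsCrossFace (n j) (e f j)
  inj : Function.Injective e
  mono : ∀ f g, f ≤ g → ∀ j, e f j ⊆ e g j
  top : e ⊤ = fun j => crossVerts (n j)

def Good (P : Poly) : Prop := ∃ (J : Type) (_ : Fintype J) (n : J → ℕ)
  (e : P.F → J → Finset ℤ), Emb P J n e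

section
variable {P : Poly} {J : Type} [Fintype J] {n : J → ℕ} {e : P.F → J → Finset ℤ}

lemma Emb.rank_lt (h : Emb P J n e) {f g : P.F} (hfg : f < g) :
    ∑ j, crk (n j) (e f j) < ∑ j, crk (n j) (e g j) := by
  apply lt_of_le_of_ne
  · exact Finset.sum_le_sum fun j _ => crk_mono (h.hn j) (h.face f j) (h.face g j)
      (h.mono f g hfg.le j)
  · intro heq
    apply hfg.ne
    apply h.inj
    funext j
    have := (Finset.sum_eq_sum_iff_of_le (fun j _ => crk_mono (h.hn j) (h.face f j)
      (h.face g j) (h.mono f g hfg.le j))).1 heq j (Finset.mem_univ j)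
    exact eq_of_crk_le (h.hn j) (h.face f j) (h.face g j) (h.mono f g hfg.le j) this.ge

lemma Emb.rank_top (h : Emb P J n e) : ∑ j, crk (n j) (e ⊤ j) = P.dim := by
  rw [h.top, ← h.dim]
  apply Finset.sum_congr rfl
  intro j _
  simp [crk]

lemma strictMono_val {d : ℕ} (f : Fin d → ℕ) (hf : StrictMono f) (hlt : ∀ i, f i < d)
    (i : Fin d) : f i = i := by
  have h1 : ∀ m, ∀ i : Fin d, (i : ℕ) = m → m ≤ f i := by
    intro m
    induction m with
    | zero => intro i _; omega
    | succ m ih =>
      intro i hi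
      have hm : m < d := by omega
      have h2 := ih ⟨m, hm⟩ rfl
      have h3 : f ⟨m, hm⟩ < f i := hf (by rw [Fin.lt_def]; simp; omega)
      omega
  have h2 : ∀ m, ∀ i : Fin d, (i : ℕ) + m + 1 = d → f i + m + 1 ≤ d := by
    intro m
    induction m with
    | zero => intro i _; have := hlt i; omega
    | succ m ih =>
      intro i hi
      have hm : (i : ℕ) + 1 < d := by omega
      have h2 := ih ⟨i + 1, hm⟩ (by simp; omega)
      have h3 : f i < f ⟨i + 1, hm⟩ := hf (by rw [Fin.lt_def]; simp)
      omega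
  have h3 := h1 i i rfl
  have h4 := h2 (d - 1 - i) i (by omega)
  omega

lemma Emb.rank_flag (h : Emb P J n e) (Ψ : P.system.Flag) (i : Fin P.dim) :
    ∑ j, crk (n j) (e (Ψ.1 i).1 j) = i := by
  apply strictMono_val (fun i : Fin P.dim => ∑ j, crk (n j) (e (Ψ.1 i).1 j))
  · intro a b hab
    exact h.rank_lt (Ψ.2 hab)
  · intro i
    exact lt_of_lt_of_eq (h.rank_lt (lt_of_le_of_ne le_top (Ψ.1 i).2)) h.rank_top

/-- offsets of the ranks -/
def off {d : ℕ} (l : List (Fin d)) : ℕ → ℤ
  | 0 => 0
  | i + 1 => off l i -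
      if h : i + 1 < d then
        if l.idxOf (⟨i + 1, h⟩ : Fin d) < l.idxOf (⟨i, by omega⟩ : Fin d) then 1 else 0
      else 0

theorem Emb.onlyAcoptic (h : Emb P J n e) : P.system.OnlyAcoptic := by
  classical
  intro l Ψ hΨ
  obtain ⟨hl, hstep⟩ := hΨ
  have hnd : l.Nodup := hl.nodup_iff.2 (List.nodup_finRange _)
  have hmem : ∀ i, i ∈ l := fun i => hl.mem_iff.2 (List.mem_finRange i)
  let G : ℕ → ℤ → J → Finset ℤ := fun i s =>
    if h : i < P.dim then e ((Ψ (s - off l i)).1 ⟨i, h⟩).1 else e ⊤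
  have hG : ∀ i (hi : i < P.dim) s, G i s = e ((Ψ (s - off l i)).1 ⟨i, hi⟩).1 := by
    intro i hi s
    simp only [G, dif_pos hi]
  have hGtop : ∀ s, G P.dim s = e ⊤ := by
    intro s
    simp only [G, lt_irrefl, dif_neg, not_false_eq_true]
  have hne : ∀ k i, (Ψ k).1 i ≠ (Ψ (k + 1)).1 i := fun k i =>
    (along_spec l hnd _ _ (hstep k)).1 i (hmem i)
  -- comparison of neighbouring ranks
  have hcmp : ∀ i (hi : i + 1 < P.dim) s,
      ((Ψ (s - off l i)).1 ⟨i, by omega⟩).1 ≤ ((Ψ (s - off l (i + 1))).1 ⟨i + 1, hi⟩).1 ∧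
      ((Ψ (s + 1 - off l i)).1 ⟨i, by omega⟩).1 ≤
        ((Ψ (s - off l (i + 1))).1 ⟨i + 1, hi⟩).1 := by
    intro i hi s
    have hab : (⟨i, by omega⟩ : Fin P.dim) < ⟨i + 1, hi⟩ := by rw [Fin.lt_def]; simp
    have hmono : ∀ k, (Ψ k).1 ⟨i, by omega⟩ < (Ψ k).1 ⟨i + 1, hi⟩ := fun k => (Ψ k).2 hab
    have hcompare := fun k => along_lt l hnd _ _ (hstep k) hab (hmem _) (hmem _)
    by_cases hidx : l.idxOf (⟨i + 1, hi⟩ : Fin P.dim) < l.idxOf (⟨i, by omega⟩ : Fin P.dim)
    · have hoff : off l (i + 1) = off l i - 1 := by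
        simp only [off, dif_pos hi, if_pos hidx]
      have e1 : s - off l (i + 1) = (s - off l i) + 1 := by rw [hoff]; ring
      rw [e1]
      refine ⟨((hcompare (s - off l i)).2 hidx).le, ?_⟩
      have e2 : s + 1 - off l i = (s - off l i) + 1 := by ring
      rw [e2]
      exact (hmono _).le
    · have hoff : off l (i + 1) = off l i := by
        simp only [off, dif_pos hi, if_neg hidx, sub_zero]
      rw [hoff]
      refine ⟨(hmono _).le, ?_⟩
      have hlt : l.idxOf (⟨i, by omega⟩ : Fin P.dim) < l.idxOf (⟨i + 1, hi⟩ : Fin P.dim) := by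
        rcases Nat.lt_trichotomy (l.idxOf (⟨i, by omega⟩ : Fin P.dim))
          (l.idxOf (⟨i + 1, hi⟩ : Fin P.dim)) with h1 | h1 | h1
        · exact h1
        · exfalso
          have := (List.idxOf_inj (hmem _)).1 h1
          rw [Fin.mk.injEq] at this
          omega
        · exact absurd h1 hidx
      have e2 : s + 1 - off l i = (s - off l i) + 1 := by ring
      rw [e2]
      exact ((hcompare (s - off l i)).1 hlt).le
  have harr : IsArr n P.dim G := by
    refine ⟨h.hn, h.dim, ?_, ?_, ?_, ?_, ?_⟩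
    · intro i _ s j
      by_cases hi : i < P.dim
      · rw [hG i hi]; exact h.face _ _
      · simp only [G, dif_neg hi]; exact h.face _ _
    · intro i hi s
      rcases Nat.lt_or_ge i P.dim with hi' | hi'
      · simp_rw [hG i hi']
        exact h.rank_flag _ _
      · have : i = P.dim := by omega
        subst this
        simp_rw [hGtop]
        exact h.rank_top
    · intro i hi s j
      rcases Nat.lt_or_ge (i + 1) P.dim with hi' | hi'
      · rw [hG i hi, hG (i + 1) hi']
        exact h.mono _ _ (hcmp i hi' s).1 j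
      · have e1 : i + 1 = P.dim := by omega
        rw [e1, hGtop]
        rw [hG i hi]
        exact h.mono _ _ le_top j
    · intro i hi s j
      rcases Nat.lt_or_ge (i + 1) P.dim with hi' | hi'
      · rw [hG i hi, hG (i + 1) hi']
        exact h.mono _ _ (hcmp i hi' s).2 j
      · have e1 : i + 1 = P.dim := by omega
        rw [e1, hGtop]
        rw [hG i hi]
        exact h.mono _ _ le_top j
    · intro i hi s heq
      rw [hG i hi, hG i hi] at heq
      have := h.inj heq
      apply hne (s - off l i) ⟨i, hi⟩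
      apply Subtype.ext
      rw [this]
      congr 3
      ring
  intro i k m hkm
  have hkm' : (Ψ k).1 i = (Ψ m).1 i := hkm
  have hGi : G i (k + off l i) = G i (m + off l i) := by
    rw [hG i i.2, hG i i.2]
    simp only [add_sub_cancel_right, Fin.eta]
    rw [hkm']
  have hmain := harr.main i.2 hGi
  apply Subtype.ext
  funext b
  have hb := hmain b b.2.le (m + off l b)
  rw [hG b b.2, hG b b.2] at hb
  have hb' := h.inj hb
  have e1 : m + off l b + (k + off l i - (m + off l i)) - off l b = k := by ring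
  rw [e1, add_sub_cancel_right] at hb'
  simp only [Fin.eta] at hb'
  exact Subtype.ext hb'

end

lemma crossVerts_one_mem {z : ℤ} : z ∈ crossVerts 1 ↔ z = 1 ∨ z = -1 := by
  rw [mem_crossVerts]
  push_cast
  constructor
  · rintro ⟨h1, h2, h3⟩; omega
  · rintro (rfl | rfl) <;> omega

noncomputable def segVerts : SegFace → Finset ℤ
  | .neg => {-1}
  | .pos => {1}
  | .all => crossVerts 1

lemma segVerts_face (f : SegFace) : IsCrossFace 1 (segVerts f) := by
  cases f with
  | neg =>
    refine ⟨⟨-1, by simp [segVerts]⟩, ?_, Or.inr ?_⟩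
    · intro z hz
      rw [segVerts, Finset.mem_singleton] at hz
      rw [crossVerts_one_mem]; exact Or.inr hz
    · intro z hz
      rw [segVerts, Finset.mem_singleton] at hz ⊢
      omega
  | pos =>
    refine ⟨⟨1, by simp [segVerts]⟩, ?_, Or.inr ?_⟩
    · intro z hz
      rw [segVerts, Finset.mem_singleton] at hz
      rw [crossVerts_one_mem]; exact Or.inl hz
    · intro z hz
      rw [segVerts, Finset.mem_singleton] at hz ⊢
      omega
  | all => exact ⟨⟨1, by rw [segVerts, crossVerts_one_mem]; left; rfl⟩, subset_rfl, Or.inl rfl⟩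

lemma segVerts_inj : Function.Injective segVerts := by
  intro a b hab
  have h1 : (1 : ℤ) ∈ segVerts a ↔ (1 : ℤ) ∈ segVerts b := by rw [hab]
  have h2 : (-1 : ℤ) ∈ segVerts a ↔ (-1 : ℤ) ∈ segVerts b := by rw [hab]
  cases a <;> cases b <;> simp [segVerts, crossVerts_one_mem] at h1 h2 ⊢

lemma segVerts_mono {a b : SegFace} (hab : a ≤ b) : segVerts a ⊆ segVerts b := by
  rcases hab with rfl | rfl
  · exact subset_rfl
  · exact (segVerts_face a).2.1

lemma good_cube (m : ℕ) : Good (cubePoly m) := by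
  refine ⟨Fin m, inferInstance, fun _ => 1, fun f i => segVerts (f i), ?_⟩
  refine ⟨fun _ => le_rfl, by simp [cubePoly], fun f j => segVerts_face _, ?_, ?_, rfl⟩
  · intro f g hfg
    funext i
    exact segVerts_inj (congrFun hfg i)
  · intro f g hfg j
    exact segVerts_mono (hfg j)

lemma good_cross (n : ℕ) : Good (crossPoly n) := by
  refine ⟨Unit, inferInstance, fun _ => n + 1, fun f _ => f.1, ?_⟩
  refine ⟨fun _ => by omega, by simp [crossPoly], fun f j => f.2, ?_, ?_, rfl⟩
  · intro f g hfg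
    exact Subtype.ext (congrFun hfg ())
  · intro f g hfg j
    exact hfg

lemma good_prod {P Q : Poly} (hP : Good P) (hQ : Good Q) : Good (P.prod Q) := by
  obtain ⟨J, _, n, e, h⟩ := hP
  obtain ⟨J', _, n', e', h'⟩ := hQ
  refine ⟨J ⊕ J', inferInstance, Sum.elim n n', fun f => Sum.elim (e f.1) (e' f.2), ?_⟩
  refine ⟨?_, ?_, ?_, ?_, ?_, ?_⟩
  · rintro (j | j)
    · exact h.hn j
    · exact h'.hn j
  · simp only [Fintype.sum_sum_type, Sum.elim_inl, Sum.elim_inr, h.dim, h'.dim, Poly.prod]
  · rintro f (j | j)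
    · exact h.face f.1 j
    · exact h'.face f.2 j
  · intro f g hfg
    apply Prod.ext
    · apply h.inj
      funext j
      exact congrFun hfg (Sum.inl j)
    · apply h'.inj
      funext j
      exact congrFun hfg (Sum.inr j)
  · rintro f g hfg (j | j)
    · exact h.mono f.1 g.1 hfg.1 j
    · exact h'.mono f.2 g.2 hfg.2 j
  · funext j
    rcases j with j | j
    · exact congrFun h.top j
    · exact congrFun h'.top j

theorem partA (P : Poly) (hP : CubeCrossProduct P) : P.system.OnlyAcoptic := by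
  have : Good P := by
    induction hP with
    | cube m => exact good_cube m
    | cross n => exact good_cross n
    | prod _ _ ih1 ih2 => exact good_prod ih1 ih2
  obtain ⟨J, _, n, e, h⟩ := this
  exact h.onlyAcoptic

end Pool.Agent.Q238.PT
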