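import Mathlib
import Pool.Agent.Q238.PT.Defs

/-!
# Products of a cube with an octagon: non-acoptic Petrie schemes
-/

namespace Pool.Agent.Q238.PT

universe u

/-- one application of `γ_0 γ_1 ⋯ γ_{n-1}` -/
lemma along_finRange {F : Type u} [PartialOrder F] {n : ℕ} (Ψ Φ : (ofPoset F n).Flag)
    (h1 : ∀ i, Ψ.1 i ≠ Φ.1 i)
    (h2 : ∀ (i : ℕ) (hi : i + 1 < n), Φ.1 ⟨i, by omega⟩ < Ψ.1 ⟨i + 1, hi⟩) :
    (ofPoset F n).Along (List.finRange n) Ψ Φ := by
  classical
  have hmono : ∀ t : ℕ, StrictMono (fun i : Fin n => if (i : ℕ) < t then Φ.1 i else Ψ.1 i) := by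
    intro t a b hab
    have hab' : (a : ℕ) < b := hab
    by_cases hb : (b : ℕ) < t
    · have ha : (a : ℕ) < t := by omega
      simp only [if_pos ha, if_pos hb]
      exact Φ.2 hab
    · by_cases ha : (a : ℕ) < t
      · simp only [if_pos ha, if_neg hb]
        have h3 : (a : ℕ) + 1 < n := by omega
        apply lt_of_lt_of_le (h2 a h3)
        apply Ψ.2.monotone
        rw [Fin.le_def]; simp; omega
      · simp only [if_neg ha, if_neg hb]
        exact Ψ.2 hab
  have key : ∀ m t : ℕ, t + m = n → (ofPoset F n).Along ((List.finRange n).drop t)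
      ⟨_, hmono t⟩ Φ := by
    intro m
    induction m with
    | zero =>
      intro t ht
      have : (List.finRange n).drop t = [] := by
        apply List.drop_eq_nil_of_le; simp; omega
      rw [this]
      show Φ = _
      apply Subtype.ext
      funext i
      have : (i : ℕ) < t := by omega
      simp only [if_pos this]
    | succ m ih =>
      intro t ht
      have htn : t < (List.finRange n).length := by simp; omega
      rw [List.drop_eq_getElem_cons htn]
      refine ⟨⟨_, hmono (t + 1)⟩, ⟨?_, ?_⟩, ih (t + 1) (by omega)⟩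
      · simp only [List.getElem_finRange, Fin.val_cast, lt_irrefl, if_false, Nat.lt_succ_self,
          if_true]
        exact h1 _
      · intro j hj
        have hj' : (j : ℕ) ≠ t := by
          intro e; apply hj
          apply Fin.ext
          simp [e]
        by_cases hlt : (j : ℕ) < t
        · simp only [if_pos hlt, if_pos (show (j : ℕ) < t + 1 by omega)]
        · simp only [if_neg hlt, if_neg (show ¬ (j : ℕ) < t + 1 by omega)]
  have h0 := key n 0 (by omega)
  have e0 : (⟨_, hmono 0⟩ : (ofPoset F n).Flag) = Ψ := by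
    apply Subtype.ext
    funext i
    simp
  rw [e0, List.drop_zero] at h0
  exact h0

/-- A criterion for a non-acoptic Petrie scheme: a cyclic sequence of `N` flags. -/
lemma not_onlyAcoptic {F : Type u} [PartialOrder F] {n N : ℕ}
    (T : ZMod N → Fin n → F) (hT : ∀ x, StrictMono (T x))
    (h1 : ∀ x i, T x i ≠ T (x + 1) i)
    (h2 : ∀ x (i : ℕ) (hi : i + 1 < n), T (x + 1) ⟨i, by omega⟩ < T x ⟨i + 1, hi⟩)
    (i : Fin n) (a b : ZMod N) (hab : T a i = T b i) (hne : T a ≠ T b) :
    ¬ (ofPoset F n).OnlyAcoptic := by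
  intro h
  have hac := h (List.finRange n) (fun k : ℤ => ⟨T (k : ZMod N), hT _⟩) ⟨List.Perm.refl _, ?_⟩
  · obtain ⟨ka, hka⟩ := ZMod.intCast_surjective a
    obtain ⟨kb, hkb⟩ := ZMod.intCast_surjective b
    have := hac i ka kb (by
      show T (ka : ZMod N) i = T (kb : ZMod N) i
      rw [hka, hkb]; exact hab)
    apply hne
    have h3 := congrArg Subtype.val this
    simp only [hka, hkb] at h3
    exact h3
  · intro k
    have e : ((k + 1 : ℤ) : ZMod N) = (k : ZMod N) + 1 := by push_cast; rfl
    apply along_finRange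
    · intro j
      simp only [e]
      exact h1 _ j
    · intro j hj
      simp only [e]
      exact h2 _ j hj

instance : DecidableLE SegFace := fun a b => inferInstanceAs (Decidable (a = b ∨ b = .all))

/-- `{m, m+1, …, m+a}` for `a = 0, 1`, everything for `a ≥ 2` -/
def gonVerts (m : ZMod 8) : ℕ → Finset (ZMod 8)
  | 0 => {m}
  | 1 => {m, m + 1}
  | _ => Finset.univ

def gonFace (m : ZMod 8) (a : ℕ) : (gonPoly 8).F :=
  ⟨gonVerts m a, by
    match a with
    | 0 => exact Or.inl ⟨m, rfl⟩
    | 1 => exact Or.inr (Or.inl ⟨m, rfl⟩)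
    | _ + 2 => exact Or.inr (Or.inr rfl)⟩

/-- number of vertices passed by the octagon component after `s` steps; `d` slots, the first two
belong to the octagon -/
def gIdx (d s : ℕ) : ℕ := 2 * (s / d) + min (s % d) 2

/-- number of flips of the `c`-th segment after `s` steps -/
def sIdx (d c s : ℕ) : ℕ := s / d + if 2 + c < s % d then 1 else 0

def segSide (x : ℕ) : SegFace := if x % 2 = 0 then .neg else .pos

def cubeGonFace (m : ℕ) (s i : ℕ) : (Fin m → SegFace) × (Finset (ZMod 8)) :=
  (fun c => if sIdx (m + 2) c s = sIdx (m + 2) c (s + i) then segSide (sIdx (m + 2) c s)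
      else .all,
    gonVerts ((gIdx (m + 2) s : ℕ) : ZMod 8) (gIdx (m + 2) (s + i) - gIdx (m + 2) s))


def lexLe (m : ℕ) (x y : (Fin m → SegFace) × (Finset (ZMod 8))) : Bool :=
  (decide (∀ c, x.1 c ≤ y.1 c)) && decide (x.2 ⊆ y.2)

def checkOct (m N : ℕ) : Bool :=
  (List.range N).all fun s => (List.range (m + 2)).all fun i =>
    decide (cubeGonFace m s i ≠ cubeGonFace m ((s + 1) % N) i) &&
    (lexLe m (cubeGonFace m s i) (cubeGonFace m s (i + 1)) &&
      (decide (cubeGonFace m s i ≠ cubeGonFace m s (i + 1)) &&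
        (lexLe m (cubeGonFace m ((s + 1) % N) i) (cubeGonFace m s (i + 1)) &&
          (decide (i + 1 = m + 2 ∨ cubeGonFace m ((s + 1) % N) i ≠ cubeGonFace m s (i + 1)) &&
            decide (¬ cubeGonFace m s i = (fun _ => .all, Finset.univ))))))

lemma checkOct_spec {m N : ℕ} (h : checkOct m N = true) {s i : ℕ} (hs : s < N)
    (hi : i < m + 2) :
    cubeGonFace m s i ≠ cubeGonFace m ((s + 1) % N) i ∧
    lexLe m (cubeGonFace m s i) (cubeGonFace m s (i + 1)) = true ∧
    cubeGonFace m s i ≠ cubeGonFace m s (i + 1) ∧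
    lexLe m (cubeGonFace m ((s + 1) % N) i) (cubeGonFace m s (i + 1)) = true ∧
    (i + 1 = m + 2 ∨ cubeGonFace m ((s + 1) % N) i ≠ cubeGonFace m s (i + 1)) ∧
    ¬ cubeGonFace m s i = (fun _ => .all, Finset.univ) := by
  unfold checkOct at h
  rw [List.all_eq_true] at h
  have h1 := h s (List.mem_range.2 hs)
  rw [List.all_eq_true] at h1
  have h2 := h1 i (List.mem_range.2 hi)
  simp only [Bool.and_eq_true, decide_eq_true_eq] at h2
  exact h2

/-- the polytope: `m`-cube times octagon -/
def cubeOct (m : ℕ) : Poly := (cubePoly m).prod (gonPoly 8)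

def octFace (m s i : ℕ) : (cubeOct m).F :=
  ((cubeGonFace m s i).1,
    gonFace ((gIdx (m + 2) s : ℕ) : ZMod 8) (gIdx (m + 2) (s + i) - gIdx (m + 2) s))

def raw (m : ℕ) (f : (cubeOct m).F) : (Fin m → SegFace) × (Finset (ZMod 8)) := (f.1, f.2.1)

lemma raw_octFace (m s i : ℕ) : raw m (octFace m s i) = cubeGonFace m s i := rfl

lemma raw_le {m : ℕ} {f g : (cubeOct m).F} (h : lexLe m (raw m f) (raw m g) = true) : f ≤ g := by
  unfold lexLe at h
  simp only [Bool.and_eq_true, decide_eq_true_eq] at h
  exact ⟨h.1, h.2⟩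

lemma raw_top (m : ℕ) : raw m ⊤ = (fun _ => .all, Finset.univ) := rfl

lemma lt_of_raw {m : ℕ} {f g : (cubeOct m).F} (h : lexLe m (raw m f) (raw m g) = true)
    (hne : raw m f ≠ raw m g) : f < g :=
  lt_of_le_of_ne (raw_le h) (fun e => hne (by rw [e]))

theorem cubeOct_not (m : ℕ) (h : checkOct m (4 * (m + 2)) = true)
    (hrep : cubeGonFace m 0 2 = cubeGonFace m (2 * (m + 2)) 2)
    (hne0 : cubeGonFace m 0 0 ≠ cubeGonFace m (2 * (m + 2)) 0) (hm : 1 ≤ m) :
    ¬ (cubeOct m).system.OnlyAcoptic := by
  have : NeZero (4 * (m + 2)) := ⟨by omega⟩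
  have hval : ∀ x : ZMod (4 * (m + 2)), (x + 1).val = (x.val + 1) % (4 * (m + 2)) := by
    intro x
    rw [ZMod.val_add]
    congr 2
  have htop : ∀ (x : ZMod (4 * (m + 2))) (i : Fin (m + 2)), octFace m x.val i ≠ ⊤ := by
    intro x i e
    apply (checkOct_spec h (ZMod.val_lt x) i.2).2.2.2.2.2
    rw [← raw_octFace, e, raw_top]
  refine not_onlyAcoptic (N := 4 * (m + 2)) (n := m + 2) (F := {f : (cubeOct m).F // f ≠ ⊤})
    (fun x i => ⟨octFace m x.val i, htop x i⟩) ?_ ?_ ?_ ⟨2, by omega⟩ 0
    ((2 * (m + 2) : ℕ) : ZMod (4 * (m + 2))) ?_ ?_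
  · intro x
    rw [Fin.strictMono_iff_lt_succ]
    intro i
    have := checkOct_spec h (ZMod.val_lt x) (show (i : ℕ) < m + 2 by omega)
    show octFace m x.val i.castSucc < octFace m x.val i.succ
    apply lt_of_raw
    · rw [raw_octFace, raw_octFace]; simpa using this.2.1
    · rw [raw_octFace, raw_octFace]; simpa using this.2.2.1
  · intro x i e
    have := (checkOct_spec h (ZMod.val_lt x) i.2).1
    apply this
    have e' := congrArg (fun f => raw m f.1) e
    simp only [raw_octFace, hval] at e'
    exact e'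
  · intro x i hi
    have := checkOct_spec h (ZMod.val_lt x) (show (i : ℕ) < m + 2 by omega)
    show octFace m (x + 1).val i < octFace m x.val (i + 1)
    rw [hval]
    apply lt_of_raw
    · rw [raw_octFace, raw_octFace]; exact this.2.2.2.1
    · rw [raw_octFace, raw_octFace]
      rcases this.2.2.2.2.1 with h1 | h1
      · omega
      · exact h1
  · apply Subtype.ext
    show octFace m (0 : ZMod (4 * (m + 2))).val 2 = octFace m _ 2
    rw [ZMod.val_natCast_of_lt (by omega), ZMod.val_zero]
    have : Function.Injective (raw m) := by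
      intro f g hfg
      have := Prod.ext_iff.1 hfg
      exact Prod.ext this.1 (Subtype.ext this.2)
    apply this
    rw [raw_octFace, raw_octFace]
    exact hrep
  · intro e
    apply hne0
    have e' := congrArg (fun f => raw m (f ⟨0, by omega⟩).1) e
    simp only [raw_octFace] at e'
    rw [ZMod.val_natCast_of_lt (by omega), ZMod.val_zero] at e'
    exact e'

set_option maxRecDepth 100000 in
theorem partB1 : ¬ ((cubePoly 1).prod (gonPoly 8)).system.OnlyAcoptic :=
  cubeOct_not 1 (by decide +kernel) (by decide +kernel) (by decide +kernel) le_rfl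

set_option maxRecDepth 100000 in
theorem partB3 : ¬ ((cubePoly 3).prod (gonPoly 8)).system.OnlyAcoptic :=
  cubeOct_not 3 (by decide +kernel) (by decide +kernel) (by decide +kernel) (by omega)

end Pool.Agent.Q238.PT
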