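import Mathlib
import Pool.Agent.Q238.PT.Defs2
import Pool.Agent.Q238.PT.PartB

/-!
# The uniform triangular prism has a non-acoptic Petrie scheme
-/

namespace Pool.Agent.Q238.PT

open scoped RealInnerProductSpace

abbrev V5 := EuclideanSpace ℝ (Fin 5)

/-- the triangular prism, as the product of two standard simplices -/
def prism : Set V5 := {x | (∀ i, 0 ≤ x i) ∧ x 0 + x 1 + x 2 = 1 ∧ x 3 + x 4 = 1}

/-- the points supported on `U` -/
def fc (U : Finset (Fin 5)) : Set V5 := {x | x ∈ prism ∧ ∀ i, i ∉ U → x i = 0}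

/-- index sets of nonempty faces -/
def GoodU (U : Finset (Fin 5)) : Prop := (0 ∈ U ∨ 1 ∈ U ∨ 2 ∈ U) ∧ (3 ∈ U ∨ 4 ∈ U)

instance : DecidablePred GoodU := fun U =>
  inferInstanceAs (Decidable ((0 ∈ U ∨ 1 ∈ U ∨ 2 ∈ U) ∧ (3 ∈ U ∨ 4 ∈ U)))

lemma goodU_of_mem : ∀ (U : Finset (Fin 5)) (i j : Fin 5), (i : ℕ) < 3 → 3 ≤ (j : ℕ) →
    i ∈ U → j ∈ U → GoodU U := by decide +kernel

/-- indicator vector of a set of coordinates -/
noncomputable def vt (i j : Fin 5) : V5 := EuclideanSpace.single i 1 + EuclideanSpace.single j 1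

lemma vt_apply (i j k : Fin 5) : vt i j k = (if k = i then 1 else 0) + (if k = j then 1 else 0) := by
  simp [vt]

lemma vt_mem {i j : Fin 5} (hi : (i : ℕ) < 3) (hj : 3 ≤ (j : ℕ)) : vt i j ∈ prism := by
  refine ⟨fun k => ?_, ?_, ?_⟩
  · rw [vt_apply]; positivity
  · simp only [vt_apply]
    fin_cases i <;> fin_cases j <;> simp at hi hj ⊢
  · simp only [vt_apply]
    fin_cases i <;> fin_cases j <;> simp at hi hj ⊢

lemma vt_mem_fc {U : Finset (Fin 5)} {i j : Fin 5} (hi : (i : ℕ) < 3) (hj : 3 ≤ (j : ℕ))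
    (hiU : i ∈ U) (hjU : j ∈ U) : vt i j ∈ fc U := by
  refine ⟨vt_mem hi hj, fun k hk => ?_⟩
  rw [vt_apply, if_neg (by rintro rfl; exact hk hiU), if_neg (by rintro rfl; exact hk hjU)]
  ring

lemma GoodU.exists {U : Finset (Fin 5)} (h : GoodU U) :
    ∃ i j : Fin 5, (i : ℕ) < 3 ∧ 3 ≤ (j : ℕ) ∧ i ∈ U ∧ j ∈ U := by
  obtain ⟨h1, h2⟩ := h
  rcases h1 with h1 | h1 | h1 <;> rcases h2 with h2 | h2
  · exact ⟨0, 3, by decide, by decide, h1, h2⟩
  · exact ⟨0, 4, by decide, by decide, h1, h2⟩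
  · exact ⟨1, 3, by decide, by decide, h1, h2⟩
  · exact ⟨1, 4, by decide, by decide, h1, h2⟩
  · exact ⟨2, 3, by decide, by decide, h1, h2⟩
  · exact ⟨2, 4, by decide, by decide, h1, h2⟩

/-- a point of the face `U` with coordinate one at `k ∈ U` -/
lemma exists_one {U : Finset (Fin 5)} (h : GoodU U) {k : Fin 5} (hk : k ∈ U) :
    ∃ x ∈ fc U, x k ≠ 0 := by
  obtain ⟨i, j, hi, hj, hiU, hjU⟩ := h.exists
  by_cases hk3 : (k : ℕ) < 3
  · refine ⟨vt k j, vt_mem_fc hk3 hj hk hjU, ?_⟩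
    rw [vt_apply, if_pos rfl]
    split_ifs <;> norm_num
  · refine ⟨vt i k, vt_mem_fc hi (by omega) hiU hk, ?_⟩
    rw [vt_apply, if_pos rfl]
    split_ifs <;> norm_num

lemma fc_mono {U V : Finset (Fin 5)} (h : U ⊆ V) : fc U ⊆ fc V :=
  fun _ hx => ⟨hx.1, fun i hi => hx.2 i (fun hi' => hi (h hi'))⟩

lemma subset_of_fc {U V : Finset (Fin 5)} (hU : GoodU U) (h : fc U ⊆ fc V) : U ⊆ V := by
  intro k hk
  obtain ⟨x, hx, hxk⟩ := exists_one hU hk
  by_contra hkV
  exact hxk ((h hx).2 k hkV)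

lemma fc_univ : fc Finset.univ = prism := by
  ext x; simp [fc]

lemma good_univ : GoodU Finset.univ := by decide

lemma fc_nonempty {U : Finset (Fin 5)} (h : GoodU U) : (fc U).Nonempty := by
  obtain ⟨i, j, hi, hj, hiU, hjU⟩ := h.exists
  exact ⟨_, vt_mem_fc hi hj hiU hjU⟩

lemma fc_ne {U : Finset (Fin 5)} (hne : U ≠ Finset.univ) : fc U ≠ prism := by
  intro e
  apply hne
  rw [← fc_univ] at e
  exact Finset.Subset.antisymm (Finset.subset_univ _) (subset_of_fc good_univ e.ge)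

lemma fc_exposed {U : Finset (Fin 5)} (h : GoodU U) : IsExposed ℝ prism (fc U) := by
  intro _
  refine ⟨-∑ i ∈ Uᶜ, EuclideanSpace.proj i, ?_⟩
  have hval : ∀ x : V5, (-∑ i ∈ Uᶜ, (EuclideanSpace.proj i : StrongDual ℝ V5)) x =
      -∑ i ∈ Uᶜ, x i := by
    intro x
    simp
  ext x
  constructor
  · rintro ⟨hx, hx0⟩
    refine ⟨hx, fun y hy => ?_⟩
    rw [hval, hval]
    have h1 : ∑ i ∈ Uᶜ, x i = 0 := Finset.sum_eq_zero fun i hi => hx0 i (by simpa using hi)
    have h2 : 0 ≤ ∑ i ∈ Uᶜ, y i := Finset.sum_nonneg fun i _ => hy.1 i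
    linarith
  · rintro ⟨hx, hxy⟩
    refine ⟨hx, fun i hi => ?_⟩
    obtain ⟨y, hy⟩ := fc_nonempty h
    have h1 := hxy y hy.1
    rw [hval, hval] at h1
    have h2 : ∑ i ∈ Uᶜ, y i = 0 := Finset.sum_eq_zero fun i hi => hy.2 i (by simpa using hi)
    have h3 : 0 ≤ ∑ i ∈ Uᶜ, x i := Finset.sum_nonneg fun i _ => hx.1 i
    have h4 : ∑ i ∈ Uᶜ, x i = 0 := by linarith
    exact (Finset.sum_eq_zero_iff_of_nonneg fun i _ => hx.1 i).1 h4 i (by simpa using hi)

lemma fc_proper {U : Finset (Fin 5)} (h : GoodU U) (hne : U ≠ Finset.univ) :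
    IsProperFace prism (fc U) := ⟨fc_exposed h, fc_nonempty h, fc_ne hne⟩

lemma decomp (x : V5) (l : StrongDual ℝ V5) :
    l x = ∑ i, x i * l (EuclideanSpace.single i 1) := by
  have hx : x = ∑ i, x i • EuclideanSpace.single i (1 : ℝ) := by
    ext k
    simp [Finset.sum_apply, Pi.single_apply]
  conv_lhs => rw [hx]
  rw [map_sum]
  apply Finset.sum_congr rfl
  intro i _
  rw [map_smul, smul_eq_mul]

/-- every nonempty exposed face is some `fc U` -/
lemma exists_fc {F : Set V5} (hF : IsExposed ℝ prism F) (hne : F.Nonempty) :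
    ∃ U, GoodU U ∧ F = fc U := by
  obtain ⟨l, hl⟩ := hF hne
  obtain ⟨x0, hx0⟩ := hne
  set a : Fin 5 → ℝ := fun i => l (EuclideanSpace.single i 1) with ha
  have hlx : ∀ x : V5, l x = ∑ i, x i * a i := fun x => decomp x l
  obtain ⟨i1, hi1, hM1⟩ : ∃ i1 : Fin 5, (i1 : ℕ) < 3 ∧ ∀ i : Fin 5, (i : ℕ) < 3 → a i ≤ a i1 := by
    obtain ⟨m, hm, hmax⟩ := Finset.exists_max_image (Finset.univ.filter fun i : Fin 5 => (i : ℕ) < 3)
      a ⟨0, by simp⟩
    exact ⟨m, by simpa using hm, fun i hi => hmax i (by simpa using hi)⟩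
  obtain ⟨i2, hi2, hM2⟩ : ∃ i2 : Fin 5, 3 ≤ (i2 : ℕ) ∧ ∀ i : Fin 5, 3 ≤ (i : ℕ) → a i ≤ a i2 := by
    obtain ⟨m, hm, hmax⟩ := Finset.exists_max_image (Finset.univ.filter fun i : Fin 5 => 3 ≤ (i : ℕ))
      a ⟨3, by simp⟩
    exact ⟨m, by simpa using hm, fun i hi => hmax i (by simpa using hi)⟩
  let M : Fin 5 → ℝ := fun i => if (i : ℕ) < 3 then a i1 else a i2
  have hMa : ∀ i, a i ≤ M i := by
    intro i
    by_cases hi : (i : ℕ) < 3
    · simp only [M, if_pos hi]; exact hM1 i hi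
    · simp only [M, if_neg hi]; exact hM2 i (by omega)
  have hsum : ∀ x ∈ prism, l x = a i1 + a i2 - ∑ i, x i * (M i - a i) := by
    intro x hx
    rw [hlx]
    simp only [Fin.sum_univ_five, M]
    simp
    have h1 := hx.2.1
    have h2 := hx.2.2
    linear_combination (a i1) * h1 + (a i2) * h2
  have hU : ∀ i, (i = i1 ∨ i = i2) → M i = a i := by
    rintro i (rfl | rfl)
    · simp only [M, if_pos hi1]
    · simp only [M, if_neg (show ¬ (i : ℕ) < 3 by omega)]
  refine ⟨Finset.univ.filter fun i => M i = a i, ?_, ?_⟩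
  · have e1 := hU i1 (Or.inl rfl)
    have e2 := hU i2 (Or.inr rfl)
    exact goodU_of_mem _ i1 i2 hi1 hi2 (by simpa using e1) (by simpa using e2)
  · have hmax : l (vt i1 i2) = a i1 + a i2 := by
      rw [vt, map_add]
    rw [hl]
    ext x
    constructor
    · rintro ⟨hx, hxy⟩
      refine ⟨hx, fun i hi => ?_⟩
      have h1 := hxy _ (vt_mem hi1 hi2)
      rw [hmax, hsum x hx] at h1
      have hnn : ∀ i ∈ Finset.univ, 0 ≤ x i * (M i - a i) := fun i _ =>
        mul_nonneg (hx.1 i) (by linarith [hMa i])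
      have h2 := Finset.sum_nonneg hnn
      have h3 : ∑ i, x i * (M i - a i) = 0 := by linarith
      have h4 := (Finset.sum_eq_zero_iff_of_nonneg hnn).1 h3 i (Finset.mem_univ i)
      rcases mul_eq_zero.1 h4 with h5 | h5
      · exact h5
      · exfalso
        apply hi
        simp only [Finset.mem_filter, Finset.mem_univ, true_and]
        linarith
    · rintro ⟨hx, hx0⟩
      refine ⟨hx, fun y hy => ?_⟩
      rw [hsum x hx, hsum y hy]
      have h1 : ∑ i, x i * (M i - a i) = 0 := by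
        apply Finset.sum_eq_zero
        intro i _
        by_cases hi : M i = a i
        · rw [hi]; ring
        · rw [hx0 i (by simpa using hi)]; ring
      have h2 : 0 ≤ ∑ i, y i * (M i - a i) := Finset.sum_nonneg fun i _ =>
        mul_nonneg (hy.1 i) (by linarith [hMa i])
      linarith

/-- facets of the prism -/
lemma facet_cases {F : Set V5} (hF : IsFacet prism F) :
    (∃ j : Fin 5, 3 ≤ (j : ℕ) ∧ F = fc {0, 1, 2, j}) ∨
    (∃ i i' : Fin 5, (i : ℕ) < 3 ∧ (i' : ℕ) < 3 ∧ i ≠ i' ∧ F = fc {i, i', 3, 4}) := by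
  obtain ⟨⟨h1, h2, h3⟩, hmax⟩ := hF
  obtain ⟨U, hU, rfl⟩ := exists_fc h1 h2
  have hne : U ≠ Finset.univ := by rintro rfl; exact h3 fc_univ
  have hmaxU : ∀ V : Finset (Fin 5), GoodU V → V ≠ Finset.univ → U ⊆ V → U = V := by
    intro V hV hVne hUV
    have := hmax _ (fc_proper hV hVne) (fc_mono hUV)
    exact Finset.Subset.antisymm hUV (subset_of_fc hV this.ge)
  have key : ∀ U : Finset (Fin 5), GoodU U → U ≠ Finset.univ →
      (∀ V : Finset (Fin 5), GoodU V → V ≠ Finset.univ → U ⊆ V → U = V) →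
      (∃ j : Fin 5, 3 ≤ (j : ℕ) ∧ U = {0, 1, 2, j}) ∨
      (∃ i i' : Fin 5, (i : ℕ) < 3 ∧ (i' : ℕ) < 3 ∧ i ≠ i' ∧ U = {i, i', 3, 4}) := by
    decide +kernel
  rcases key U hU hne hmaxU with ⟨j, hj, rfl⟩ | ⟨i, i', hi, hi', hii, rfl⟩
  · exact Or.inl ⟨j, hj, rfl⟩
  · exact Or.inr ⟨i, i', hi, hi', hii, rfl⟩

lemma convex_fc (U : Finset (Fin 5)) : Convex ℝ (fc U) := by
  intro x hx y hy a b ha hb hab
  refine ⟨⟨fun i => ?_, ?_, ?_⟩, fun i hi => ?_⟩
  · have h1 := hx.1.1 i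
    have h2 := hy.1.1 i
    simp only [PiLp.add_apply, PiLp.smul_apply, smul_eq_mul]
    positivity
  · have h1 := hx.1.2.1
    have h2 := hy.1.2.1
    simp only [PiLp.add_apply, PiLp.smul_apply, smul_eq_mul]
    linear_combination a * h1 + b * h2 + hab
  · have h1 := hx.1.2.2
    have h2 := hy.1.2.2
    simp only [PiLp.add_apply, PiLp.smul_apply, smul_eq_mul]
    linear_combination a * h1 + b * h2 + hab
  · simp only [PiLp.add_apply, PiLp.smul_apply, smul_eq_mul, hx.2 i hi, hy.2 i hi]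
    ring

/-- the vertices of the face `U` -/
def vset (U : Finset (Fin 5)) : Set V5 :=
  {x | ∃ i j : Fin 5, (i : ℕ) < 3 ∧ 3 ≤ (j : ℕ) ∧ i ∈ U ∧ j ∈ U ∧ x = vt i j}

lemma fc_eq_hull (U : Finset (Fin 5)) : fc U = convexHull ℝ (vset U) := by
  apply Set.Subset.antisymm
  · intro x hx
    set A : Finset (Fin 5) := U.filter fun i : Fin 5 => (i : ℕ) < 3 with hA
    set B : Finset (Fin 5) := U.filter fun i : Fin 5 => 3 ≤ (i : ℕ) with hB
    have hsA : ∑ i ∈ A, x i = 1 := by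
      rw [← hx.1.2.1, hA, Finset.sum_filter]
      have : ∑ i ∈ U, (if (i : ℕ) < 3 then x i else 0) =
          ∑ i : Fin 5, (if (i : ℕ) < 3 then x i else 0) := by
        apply Finset.sum_subset (Finset.subset_univ _)
        intro i _ hi
        rw [hx.2 i hi]; simp
      rw [this, Fin.sum_univ_five]
      simp
    have hsB : ∑ i ∈ B, x i = 1 := by
      rw [← hx.1.2.2, hB, Finset.sum_filter]
      have : ∑ i ∈ U, (if 3 ≤ (i : ℕ) then x i else 0) =
          ∑ i : Fin 5, (if 3 ≤ (i : ℕ) then x i else 0) := by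
        apply Finset.sum_subset (Finset.subset_univ _)
        intro i _ hi
        rw [hx.2 i hi]; simp
      rw [this, Fin.sum_univ_five]
      simp
    have hxe : x = ∑ p ∈ A ×ˢ B, (x p.1 * x p.2) • vt p.1 p.2 := by
      ext k
      rw [WithLp.ofLp_sum, Finset.sum_apply]
      simp only [PiLp.smul_apply, smul_eq_mul, vt_apply]
      rw [Finset.sum_product]
      have h1 : ∀ i ∈ A, ∑ j ∈ B, x i * x j * ((if k = i then 1 else 0) +
          (if k = j then 1 else 0)) = x i * (if k = i then 1 else 0) +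
          x i * ∑ j ∈ B, x j * (if k = j then 1 else 0) := by
        intro i _
        rw [Finset.mul_sum]
        have : x i * (if k = i then (1 : ℝ) else 0) =
            ∑ j ∈ B, x i * (if k = i then (1 : ℝ) else 0) * x j := by
          rw [← Finset.mul_sum, hsB, mul_one]
        rw [this, ← Finset.sum_add_distrib]
        apply Finset.sum_congr rfl
        intro j _
        ring
      rw [Finset.sum_congr rfl h1, Finset.sum_add_distrib, ← Finset.sum_mul, hsA, one_mul]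
      simp only [mul_ite, mul_one, mul_zero, Finset.sum_ite_eq]
      by_cases hkU : k ∈ U
      · by_cases hk : (k : ℕ) < 3
        · rw [if_pos (by simp [hA, hkU, hk]), if_neg (by simp [hB]; omega), add_zero]
        · rw [if_neg (by simp [hA]; omega), if_pos (by simp [hB, hkU]; omega), zero_add]
      · rw [hx.2 k hkU]; simp
    rw [hxe]
    apply (convex_convexHull ℝ (vset U)).sum_mem
    · intro p _
      exact mul_nonneg (hx.1.1 _) (hx.1.1 _)
    · rw [Finset.sum_product]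
      simp only [← Finset.mul_sum, hsB, mul_one, hsA]
    · intro p hp
      rw [Finset.mem_product] at hp
      apply subset_convexHull
      simp only [hA, hB, Finset.mem_filter] at hp
      exact ⟨p.1, p.2, hp.1.2, hp.2.2, hp.1.1, hp.2.1, rfl⟩
  · apply convexHull_min _ (convex_fc U)
    rintro x ⟨i, j, hi, hj, hiU, hjU, rfl⟩
    exact vt_mem_fc hi hj hiU hjU

lemma regular_of {E : Type} [NormedAddCommGroup E] [InnerProductSpace ℝ E] {P : Set E}
    (N : ℕ) (c w1 w2 : E) (hN : 3 ≤ N) (h11 : ⟪w1, w1⟫ = ⟪w2, w2⟫) (h0 : w1 ≠ 0)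
    (h12 : ⟪w1, w2⟫ = 0)
    (hP : P = convexHull ℝ (Set.range fun k : Fin N =>
      c + Real.cos (2 * Real.pi * k / N) • w1 + Real.sin (2 * Real.pi * k / N) • w2)) :
    IsRegularPolygon P := by
  have hr : 0 < ‖w1‖ := norm_pos_iff.2 h0
  have hn : ‖w2‖ = ‖w1‖ := by
    rw [real_inner_self_eq_norm_sq, real_inner_self_eq_norm_sq] at h11
    nlinarith [norm_nonneg w1, norm_nonneg w2]
  refine ⟨N, c, ‖w1‖⁻¹ • w1, ‖w1‖⁻¹ • w2, ‖w1‖, hN, hr, ?_, ?_, ?_, ?_⟩
  · rw [norm_smul, norm_inv, norm_norm, inv_mul_cancel₀ hr.ne']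
  · rw [norm_smul, norm_inv, norm_norm, hn, inv_mul_cancel₀ hr.ne']
  · rw [inner_smul_left, inner_smul_right, h12]; simp
  · rw [hP]
    congr 2
    funext k
    rw [smul_smul, smul_smul]
    congr 3
    all_goals field_simp

lemma inner5 (x y : V5) : ⟪x, y⟫ = x 0 * y 0 + x 1 * y 1 + x 2 * y 2 + x 3 * y 3 + x 4 * y 4 := by
  rw [PiLp.inner_apply, Fin.sum_univ_five]
  simp [mul_comm]

lemma square_regular {i i' : Fin 5} (hi : (i : ℕ) < 3) (hi' : (i' : ℕ) < 3) (hne : i ≠ i') :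
    IsRegularPolygon (fc {i, i', 3, 4}) := by
  set e : Fin 5 → V5 := fun k => EuclideanSpace.single k 1 with he
  have hi3 : i ≠ 3 := by rintro rfl; simp at hi
  have hi4 : i ≠ 4 := by rintro rfl; simp at hi
  have hi3' : i' ≠ 3 := by rintro rfl; simp at hi'
  have hi4' : i' ≠ 4 := by rintro rfl; simp at hi'
  have hee : ∀ k m : Fin 5, ⟪e k, e m⟫ = if k = m then 1 else 0 := by
    intro k m
    simp only [he]
    rw [EuclideanSpace.inner_single_left]
    simp
  refine regular_of 4 ((1/2 : ℝ) • (e i + e i' + e 3 + e 4))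
    ((1/2 : ℝ) • (e i - e i' + e 3 - e 4)) ((1/2 : ℝ) • (e i' - e i + e 3 - e 4)) (by norm_num)
    ?_ ?_ ?_ ?_
  · simp only [inner_smul_left, inner_smul_right, inner_add_left, inner_sub_left,
      inner_add_right, inner_sub_right, hee]
    simp [hne, hne.symm, hi3, hi4, hi3', hi4', hi3.symm, hi4.symm, hi3'.symm, hi4'.symm]
  · intro h
    have := congrArg (fun x : V5 => ⟪x, e i⟫) h
    simp only [inner_smul_left, inner_add_left, inner_sub_left, hee, inner_zero_left] at this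
    simp [hne.symm, hi3.symm, hi4.symm] at this
  · simp only [inner_smul_left, inner_smul_right, inner_add_left, inner_sub_left,
      inner_add_right, inner_sub_right, hee]
    simp [hne, hne.symm, hi3, hi4, hi3', hi4', hi3.symm, hi4.symm, hi3'.symm, hi4'.symm]
  · rw [fc_eq_hull]
    congr 1
    have c1 : Real.cos (2 * Real.pi * 1 / 4) = 0 := by
      rw [show 2 * Real.pi * 1 / 4 = Real.pi / 2 by ring, Real.cos_pi_div_two]
    have s1 : Real.sin (2 * Real.pi * 1 / 4) = 1 := by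
      rw [show 2 * Real.pi * 1 / 4 = Real.pi / 2 by ring, Real.sin_pi_div_two]
    have c2 : Real.cos (2 * Real.pi * 2 / 4) = -1 := by
      rw [show 2 * Real.pi * 2 / 4 = Real.pi by ring, Real.cos_pi]
    have s2 : Real.sin (2 * Real.pi * 2 / 4) = 0 := by
      rw [show 2 * Real.pi * 2 / 4 = Real.pi by ring, Real.sin_pi]
    have c3 : Real.cos (2 * Real.pi * 3 / 4) = 0 := by
      rw [show 2 * Real.pi * 3 / 4 = Real.pi / 2 + Real.pi by ring, Real.cos_add_pi,
        Real.cos_pi_div_two, neg_zero]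
    have s3 : Real.sin (2 * Real.pi * 3 / 4) = -1 := by
      rw [show 2 * Real.pi * 3 / 4 = Real.pi / 2 + Real.pi by ring, Real.sin_add_pi,
        Real.sin_pi_div_two]
    have f0 : (1/2 : ℝ) • (e i + e i' + e 3 + e 4) + Real.cos (2 * Real.pi * ((0 : Fin 4) : ℕ) / ((4 : ℕ) : ℝ)) • ((1/2 : ℝ) • (e i - e i' + e 3 - e 4)) + Real.sin (2 * Real.pi * ((0 : Fin 4) : ℕ) / ((4 : ℕ) : ℝ)) • ((1/2 : ℝ) • (e i' - e i + e 3 - e 4)) = vt i 3 := by
      simp [vt, he]; module
    have f1 : (1/2 : ℝ) • (e i + e i' + e 3 + e 4) + Real.cos (2 * Real.pi * ((1 : Fin 4) : ℕ) / ((4 : ℕ) : ℝ)) • ((1/2 : ℝ) • (e i - e i' + e 3 - e 4)) + Real.sin (2 * Real.pi * ((1 : Fin 4) : ℕ) / ((4 : ℕ) : ℝ)) • ((1/2 : ℝ) • (e i' - e i + e 3 - e 4)) = vt i' 3 := by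
      rw [show (((1 : Fin 4) : ℕ) : ℝ) = 1 by simp, show ((4 : ℕ) : ℝ) = 4 by norm_num, c1, s1]
      simp only [vt, he]; module
    have f2 : (1/2 : ℝ) • (e i + e i' + e 3 + e 4) + Real.cos (2 * Real.pi * ((2 : Fin 4) : ℕ) / ((4 : ℕ) : ℝ)) • ((1/2 : ℝ) • (e i - e i' + e 3 - e 4)) + Real.sin (2 * Real.pi * ((2 : Fin 4) : ℕ) / ((4 : ℕ) : ℝ)) • ((1/2 : ℝ) • (e i' - e i + e 3 - e 4)) = vt i' 4 := by
      rw [show (((2 : Fin 4) : ℕ) : ℝ) = 2 by simp, show ((4 : ℕ) : ℝ) = 4 by norm_num, c2, s2]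
      simp only [vt, he]; module
    have f3 : (1/2 : ℝ) • (e i + e i' + e 3 + e 4) + Real.cos (2 * Real.pi * ((3 : Fin 4) : ℕ) / ((4 : ℕ) : ℝ)) • ((1/2 : ℝ) • (e i - e i' + e 3 - e 4)) + Real.sin (2 * Real.pi * ((3 : Fin 4) : ℕ) / ((4 : ℕ) : ℝ)) • ((1/2 : ℝ) • (e i' - e i + e 3 - e 4)) = vt i 4 := by
      rw [show (((3 : Fin 4) : ℕ) : ℝ) = 3 by simp, show ((4 : ℕ) : ℝ) = 4 by norm_num, c3, s3]
      simp only [vt, he]; module
    ext x
    constructor
    · rintro ⟨a, b, ha, hb, haU, hbU, rfl⟩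
      have ha' : a = i ∨ a = i' := by
        simp only [Finset.mem_insert, Finset.mem_singleton] at haU
        rcases haU with h | h | h | h
        · exact Or.inl h
        · exact Or.inr h
        · subst h; simp at ha
        · subst h; simp at ha
      have hb' : b = 3 ∨ b = 4 := by
        simp only [Finset.mem_insert, Finset.mem_singleton] at hbU
        rcases hbU with h | h | h | h
        · subst h; omega
        · subst h; omega
        · exact Or.inl h
        · exact Or.inr h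
      rcases ha' with rfl | rfl <;> rcases hb' with rfl | rfl
      · exact ⟨0, f0⟩
      · exact ⟨3, f3⟩
      · exact ⟨1, f1⟩
      · exact ⟨2, f2⟩
    · rintro ⟨k, rfl⟩
      fin_cases k
      · exact ⟨i, 3, hi, by simp, by simp, by simp, f0⟩
      · exact ⟨i', 3, hi', by simp, by simp, by simp, f1⟩
      · exact ⟨i', 4, hi', by simp, by simp, by simp, f2⟩
      · exact ⟨i, 4, hi, by simp, by simp, by simp, f3⟩

lemma triangle_regular {j : Fin 5} (hj : 3 ≤ (j : ℕ)) : IsRegularPolygon (fc {0, 1, 2, j}) := by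
  set e : Fin 5 → V5 := fun k => EuclideanSpace.single k 1 with he
  have hj0 : j ≠ 0 := by rintro rfl; simp at hj
  have hj1 : j ≠ 1 := by rintro rfl; simp at hj
  have hj2 : j ≠ 2 := by rintro rfl; simp at hj
  have hee : ∀ k m : Fin 5, ⟪e k, e m⟫ = if k = m then 1 else 0 := by
    intro k m
    simp only [he]
    rw [EuclideanSpace.inner_single_left]
    simp
  have h3 : Real.sqrt 3 * Real.sqrt 3 = 3 := Real.mul_self_sqrt (by norm_num)
  have h3p : 0 < Real.sqrt 3 := Real.sqrt_pos.2 (by norm_num)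
  have h3i : (Real.sqrt 3)⁻¹ * (Real.sqrt 3)⁻¹ = 1 / 3 := by
    rw [← mul_inv, h3]; norm_num
  refine regular_of 3 ((1/3 : ℝ) • (e 0 + e 1 + e 2) + e j)
    ((2/3 : ℝ) • e 0 - (1/3 : ℝ) • e 1 - (1/3 : ℝ) • e 2)
    ((Real.sqrt 3)⁻¹ • (e 1 - e 2)) (by norm_num) ?_ ?_ ?_ ?_
  · simp only [inner_smul_left, inner_smul_right, inner_sub_left,
      inner_sub_right, hee]
    simp
    nlinarith [h3i]
  · intro h
    have := congrArg (fun x : V5 => ⟪x, e 0⟫) h
    simp only [inner_smul_left, inner_sub_left, hee, inner_zero_left] at this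
    simp at this
  · simp only [inner_smul_left, inner_smul_right, inner_sub_left,
      inner_sub_right, hee]
    simp
  · rw [fc_eq_hull]
    congr 1
    have c1 : Real.cos (2 * Real.pi * 1 / 3) = -1/2 := by
      rw [show 2 * Real.pi * 1 / 3 = Real.pi - Real.pi / 3 by ring, Real.cos_pi_sub,
        Real.cos_pi_div_three]; norm_num
    have s1 : Real.sin (2 * Real.pi * 1 / 3) = Real.sqrt 3 / 2 := by
      rw [show 2 * Real.pi * 1 / 3 = Real.pi - Real.pi / 3 by ring, Real.sin_pi_sub,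
        Real.sin_pi_div_three]
    have c2 : Real.cos (2 * Real.pi * 2 / 3) = -1/2 := by
      rw [show 2 * Real.pi * 2 / 3 = Real.pi / 3 + Real.pi by ring, Real.cos_add_pi,
        Real.cos_pi_div_three]; norm_num
    have s2 : Real.sin (2 * Real.pi * 2 / 3) = -(Real.sqrt 3 / 2) := by
      rw [show 2 * Real.pi * 2 / 3 = Real.pi / 3 + Real.pi by ring, Real.sin_add_pi,
        Real.sin_pi_div_three]
    have hs : Real.sqrt 3 / 2 * (Real.sqrt 3)⁻¹ = 1 / 2 := by
      field_simp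
    have f0 : (1/3 : ℝ) • (e 0 + e 1 + e 2) + e j + Real.cos (2 * Real.pi * ((0 : Fin 3) : ℕ) / ((3 : ℕ) : ℝ)) • ((2/3 : ℝ) • e 0 - (1/3 : ℝ) • e 1 - (1/3 : ℝ) • e 2) + Real.sin (2 * Real.pi * ((0 : Fin 3) : ℕ) / ((3 : ℕ) : ℝ)) • ((Real.sqrt 3)⁻¹ • (e 1 - e 2)) = vt 0 j := by
      simp [vt, he]; module
    have f1 : (1/3 : ℝ) • (e 0 + e 1 + e 2) + e j + Real.cos (2 * Real.pi * ((1 : Fin 3) : ℕ) / ((3 : ℕ) : ℝ)) • ((2/3 : ℝ) • e 0 - (1/3 : ℝ) • e 1 - (1/3 : ℝ) • e 2) + Real.sin (2 * Real.pi * ((1 : Fin 3) : ℕ) / ((3 : ℕ) : ℝ)) • ((Real.sqrt 3)⁻¹ • (e 1 - e 2)) = vt 1 j := by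
      rw [show (((1 : Fin 3) : ℕ) : ℝ) = 1 by simp, show ((3 : ℕ) : ℝ) = 3 by norm_num, c1, s1,
        smul_smul, hs]
      simp only [vt, he]; module
    have f2 : (1/3 : ℝ) • (e 0 + e 1 + e 2) + e j + Real.cos (2 * Real.pi * ((2 : Fin 3) : ℕ) / ((3 : ℕ) : ℝ)) • ((2/3 : ℝ) • e 0 - (1/3 : ℝ) • e 1 - (1/3 : ℝ) • e 2) + Real.sin (2 * Real.pi * ((2 : Fin 3) : ℕ) / ((3 : ℕ) : ℝ)) • ((Real.sqrt 3)⁻¹ • (e 1 - e 2)) = vt 2 j := by
      rw [show (((2 : Fin 3) : ℕ) : ℝ) = 2 by simp, show ((3 : ℕ) : ℝ) = 3 by norm_num, c2, s2,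
        smul_smul, neg_mul, hs]
      simp only [vt, he]; module
    ext x
    constructor
    · rintro ⟨a, b, ha, hb, haU, hbU, rfl⟩
      have hb' : b = j := by
        simp only [Finset.mem_insert, Finset.mem_singleton] at hbU
        rcases hbU with h | h | h | h
        · subst h; simp at hb
        · subst h; simp at hb
        · subst h; simp at hb
        · exact h
      subst hb'
      have ha' : a = 0 ∨ a = 1 ∨ a = 2 := by
        simp only [Finset.mem_insert, Finset.mem_singleton] at haU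
        rcases haU with h | h | h | h
        · exact Or.inl h
        · exact Or.inr (Or.inl h)
        · exact Or.inr (Or.inr h)
        · subst h; omega
      rcases ha' with rfl | rfl | rfl
      · exact ⟨0, f0⟩
      · exact ⟨1, f1⟩
      · exact ⟨2, f2⟩
    · rintro ⟨k, rfl⟩
      fin_cases k
      · exact ⟨0, j, by simp, hj, by simp, by simp, f0⟩
      · exact ⟨1, j, by simp, hj, by simp, by simp, f1⟩
      · exact ⟨2, j, by simp, hj, by simp, by simp, f2⟩

/-- the linear conditions on the directions of the prism -/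
def dirMap : V5 →ₗ[ℝ] ℝ × ℝ where
  toFun x := (x 0 + x 1 + x 2, x 3 + x 4)
  map_add' x y := by
    ext
    · simp only [PiLp.add_apply, Prod.mk_add_mk]; ring
    · simp only [PiLp.add_apply, Prod.mk_add_mk]; ring
  map_smul' a x := by
    ext
    · simp only [PiLp.smul_apply, smul_eq_mul, RingHom.id_apply, Prod.smul_mk]; ring
    · simp only [PiLp.smul_apply, smul_eq_mul, RingHom.id_apply, Prod.smul_mk]; ring

lemma vectorSpan_prism : vectorSpan ℝ prism = LinearMap.ker dirMap := by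
  apply le_antisymm
  · rw [vectorSpan_def, Submodule.span_le]
    rintro z ⟨x, hx, y, hy, rfl⟩
    rw [SetLike.mem_coe, LinearMap.mem_ker]
    have h1 := hx.2.1
    have h2 := hx.2.2
    have h3 := hy.2.1
    have h4 := hy.2.2
    simp only [dirMap, LinearMap.coe_mk, AddHom.coe_mk, vsub_eq_sub, PiLp.sub_apply,
      Prod.mk_eq_zero]
    constructor <;> linarith
  · intro x hx
    rw [LinearMap.mem_ker] at hx
    simp only [dirMap, LinearMap.coe_mk, AddHom.coe_mk, Prod.mk_eq_zero] at hx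
    have m03 : vt 0 3 ∈ prism := vt_mem (by decide) (by decide)
    have m13 : vt 1 3 ∈ prism := vt_mem (by decide) (by decide)
    have m23 : vt 2 3 ∈ prism := vt_mem (by decide) (by decide)
    have m24 : vt 2 4 ∈ prism := vt_mem (by decide) (by decide)
    have hx' : x = x 0 • (vt 0 3 -ᵥ vt 2 3) + x 1 • (vt 1 3 -ᵥ vt 2 3) +
        x 3 • (vt 2 3 -ᵥ vt 2 4) := by
      ext k
      simp only [vsub_eq_sub, PiLp.add_apply, PiLp.smul_apply, PiLp.sub_apply, smul_eq_mul,
        vt_apply]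
      fin_cases k
      · simp
      · simp
      · simp; linarith [hx.1]
      · simp
      · simp; linarith [hx.2]
    rw [hx']
    apply Submodule.add_mem _ (Submodule.add_mem _ _ _)
    · exact Submodule.smul_mem _ _ (vsub_mem_vectorSpan ℝ m23 m24)
    · exact Submodule.smul_mem _ _ (vsub_mem_vectorSpan ℝ m03 m23)
    · exact Submodule.smul_mem _ _ (vsub_mem_vectorSpan ℝ m13 m23)

lemma dim_prism : dim prism = 3 := by
  unfold dim
  rw [vectorSpan_prism]
  have h := LinearMap.finrank_range_add_finrank_ker dirMap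
  have hr : LinearMap.range dirMap = ⊤ := by
    rw [LinearMap.range_eq_top]
    rintro ⟨a, b⟩
    refine ⟨a • EuclideanSpace.single 0 1 + b • EuclideanSpace.single 3 1, ?_⟩
    simp [dirMap]
  rw [hr, finrank_top, Module.finrank_prod, finrank_euclideanSpace] at h
  simp at h
  omega

/-- permutation of coordinates -/
noncomputable def permIso (σ : Equiv.Perm (Fin 5)) : V5 ≃ᵢ V5 :=
  (LinearIsometryEquiv.piLpCongrLeft 2 ℝ ℝ σ).toIsometryEquiv

lemma permIso_apply (σ : Equiv.Perm (Fin 5)) (x : V5) (k : Fin 5) :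
    permIso σ x k = x (σ.symm k) := by
  simp [permIso, LinearIsometryEquiv.piLpCongrLeft_apply]

lemma perm_prism (σ : Equiv.Perm (Fin 5)) (hσ : ∀ k : Fin 5, (k : ℕ) < 3 ↔ (σ k : ℕ) < 3) {x : V5}
    (hx : x ∈ prism) : permIso σ x ∈ prism := by
  have hσ' : ∀ k : Fin 5, (k : ℕ) < 3 ↔ (σ.symm k : ℕ) < 3 := by
    intro k
    have := hσ (σ.symm k)
    rw [Equiv.apply_symm_apply] at this
    exact this.symm
  have e1 : ∀ y : V5, y 0 + y 1 + y 2 = ∑ k : Fin 5, if (k : ℕ) < 3 then y k else 0 := by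
    intro y; rw [Fin.sum_univ_five]; simp
  have e2 : ∀ y : V5, y 3 + y 4 = ∑ k : Fin 5, if (k : ℕ) < 3 then 0 else y k := by
    intro y; rw [Fin.sum_univ_five]; simp
  refine ⟨fun i => by rw [permIso_apply]; exact hx.1 _, ?_, ?_⟩
  · rw [e1, ← hx.2.1, e1 x,
      ← Equiv.sum_comp σ.symm (fun m : Fin 5 => if (m : ℕ) < 3 then x m else 0)]
    apply Finset.sum_congr rfl
    intro k _
    rw [permIso_apply]
    simp only [hσ' k]
  · rw [e2, ← hx.2.2, e2 x,
      ← Equiv.sum_comp σ.symm (fun m : Fin 5 => if (m : ℕ) < 3 then 0 else x m)]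
    apply Finset.sum_congr rfl
    intro k _
    rw [permIso_apply]
    simp only [hσ' k]

lemma vertexTransitive_prism : VertexTransitive prism := by
  intro x hx y hy
  have hP : prism = convexHull ℝ (vset Finset.univ) := by rw [← fc_univ, fc_eq_hull]
  have hmem : ∀ x ∈ prism.extremePoints ℝ, ∃ i j : Fin 5, (i : ℕ) < 3 ∧ 3 ≤ (j : ℕ) ∧
      x = vt i j := by
    intro x hx
    rw [hP] at hx
    obtain ⟨i, j, hi, hj, _, _, h⟩ := extremePoints_convexHull_subset hx
    exact ⟨i, j, hi, hj, h⟩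
  obtain ⟨i, j, hi, hj, rfl⟩ := hmem x hx
  obtain ⟨i', j', hi', hj', rfl⟩ := hmem y hy
  have key : ∀ i j i' j' : Fin 5, (i : ℕ) < 3 → 3 ≤ (j : ℕ) → (i' : ℕ) < 3 → 3 ≤ (j' : ℕ) →
      (∀ k : Fin 5, (k : ℕ) < 3 ↔
        ((Equiv.swap i i' * Equiv.swap j j' : Equiv.Perm (Fin 5)) k : ℕ) < 3) ∧
      (∀ k, (Equiv.swap i i' * Equiv.swap j j' : Equiv.Perm (Fin 5)).symm k = i ↔ k = i') ∧
      (∀ k, (Equiv.swap i i' * Equiv.swap j j' : Equiv.Perm (Fin 5)).symm k = j ↔ k = j') ∧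
      (∀ k, (Equiv.swap i i' * Equiv.swap j j' : Equiv.Perm (Fin 5)).symm k =
        (Equiv.swap i i' * Equiv.swap j j' : Equiv.Perm (Fin 5)) k) := by
    decide +kernel
  obtain ⟨k1, k2, k3, k4⟩ := key i j i' j' hi hj hi' hj'
  set σ : Equiv.Perm (Fin 5) := Equiv.swap i i' * Equiv.swap j j' with hσ
  refine ⟨permIso σ, ?_, ?_⟩
  · apply Set.Subset.antisymm
    · rintro _ ⟨x, hx, rfl⟩
      exact perm_prism σ k1 hx
    · intro x hx
      refine ⟨permIso σ x, perm_prism σ k1 hx, ?_⟩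
      ext k
      have hk : σ.symm (σ.symm k) = k := by rw [k4 k, Equiv.symm_apply_apply]
      rw [permIso_apply, permIso_apply, hk]
  · ext k
    rw [permIso_apply, vt_apply, vt_apply]
    simp only [k2 k, k3 k]

theorem prism_uniform : IsUniform 3 prism := by
  refine IsUniform.succ le_rfl ?_ dim_prism vertexTransitive_prism ?_
  · refine ⟨vset Finset.univ, ?_, ?_, ?_⟩
    · apply Set.Finite.subset (Set.finite_range fun p : Fin 5 × Fin 5 => vt p.1 p.2)
      rintro x ⟨i, j, _, _, _, _, rfl⟩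
      exact ⟨(i, j), rfl⟩
    · exact ⟨vt 0 3, 0, 3, by simp, by simp, by simp, by simp, rfl⟩
    · rw [← fc_univ, fc_eq_hull]
  · intro F hF
    apply IsUniform.polygon
    rcases facet_cases hF with ⟨j, hj, rfl⟩ | ⟨i, i', hi, hi', hne, rfl⟩
    · exact triangle_regular hj
    · exact square_regular hi hi' hne

/-- the index sets of the faces of a Petrie scheme of the prism -/
def petU (s i : ℕ) : Finset (Fin 5) :=
  ((Finset.range (2 * ((s + i) / 3) + min ((s + i) % 3) 2 - (2 * (s / 3) + min (s % 3) 2) +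
    1)).image fun u => Fin.ofNat 5 ((2 * (s / 3) + min (s % 3) 2 + u) % 3)) ∪
  ((Finset.range ((s + i) / 3 - s / 3 + 1)).image fun u => Fin.ofNat 5 (3 + (s / 3 + u) % 2))

lemma petU_spec : ∀ s < 18, (∀ i < 3, GoodU (petU s i) ∧ petU s i ≠ Finset.univ ∧
    petU s i ≠ petU ((s + 1) % 18) i) ∧
    (∀ i < 2, petU s i ⊂ petU s (i + 1) ∧ petU ((s + 1) % 18) i ⊂ petU s (i + 1)) := by
  decide +kernel

lemma fc_lt {U V : Finset (Fin 5)} (hV : GoodU V) (h : U ⊂ V) : fc U < fc V := by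
  refine ⟨fc_mono h.subset, fun h2 => ?_⟩
  exact h.not_subset (subset_of_fc hV h2)

theorem prism_not : ¬ (convexSystem prism).OnlyAcoptic := by
  unfold convexSystem
  rw [dim_prism]
  have hp : ∀ (x : ZMod 18) (i : Fin 3), IsProperFace prism (fc (petU x.val i)) := by
    intro x i
    have := (petU_spec x.val (ZMod.val_lt x)).1 i i.2
    exact fc_proper this.1 this.2.1
  have hval : ∀ x : ZMod 18, (x + 1).val = (x.val + 1) % 18 := by
    intro x
    rw [ZMod.val_add]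
    rfl
  refine not_onlyAcoptic (N := 18) (fun x i => ⟨fc (petU x.val i), hp x i⟩) ?_ ?_ ?_ 2 0 6 ?_ ?_
  · intro x
    rw [Fin.strictMono_iff_lt_succ]
    intro i
    have h1 := (petU_spec x.val (ZMod.val_lt x)).2 i (by omega)
    have h2 := (petU_spec x.val (ZMod.val_lt x)).1 (i + 1) (by omega)
    show fc (petU x.val i.castSucc) < fc (petU x.val i.succ)
    simp only [Fin.val_castSucc, Fin.val_succ]
    exact fc_lt h2.1 h1.1
  · intro x i e
    have h1 := (petU_spec x.val (ZMod.val_lt x)).1 i i.2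
    have h2 := (petU_spec (x + 1).val (ZMod.val_lt _)).1 i i.2
    have e' := congrArg Subtype.val e
    simp only at e'
    rw [hval] at e' h2
    exact h1.2.2 (Finset.Subset.antisymm (subset_of_fc h1.1 e'.le) (subset_of_fc h2.1 e'.ge))
  · intro x i hi
    have h1 := (petU_spec x.val (ZMod.val_lt x)).2 i (by omega)
    have h2 := (petU_spec x.val (ZMod.val_lt x)).1 (i + 1) (by omega)
    show fc (petU (x + 1).val i) < fc (petU x.val (i + 1))
    rw [hval]
    exact fc_lt h2.1 h1.2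
  · apply Subtype.ext
    show fc (petU 0 2) = fc (petU 6 2)
    have : petU 0 2 = petU 6 2 := by decide +kernel
    rw [this]
  · intro e
    have e' := congrArg (fun f => (f 0).1) e
    have e'' : fc (petU 0 0) = fc (petU 6 0) := e'
    have h1 := (petU_spec 0 (by norm_num)).1 0 (by norm_num)
    have h2 := (petU_spec 6 (by norm_num)).1 0 (by norm_num)
    have := Finset.Subset.antisymm (subset_of_fc h1.1 e''.le) (subset_of_fc h2.1 e''.ge)
    revert this
    decide +kernel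

theorem partC : ∃ P : Set V5, IsUniform 3 P ∧ ¬ (convexSystem P).OnlyAcoptic :=
  ⟨prism, prism_uniform, prism_not⟩

end Pool.Agent.Q238.PT
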