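import Mathlib
import Pool.Agent.Q238.PT.Defs2

/-!
# Regular star-polytopes have only acoptic Petrie schemes
-/

namespace Pool.Agent.Q238.PT

open scoped RealInnerProductSpace

lemma ofGroup_along {G : Type} [Group G] {n : ℕ} (r : Fin n → G) :
    ∀ (l : List (Fin n)) (Ψ Φ : (ofGroup r).Flag), (ofGroup r).Along l Ψ Φ →
      (Φ : Subgroup.closure (Set.range r)).1 = Ψ.1 * (l.map r).prod := by
  intro l
  induction l with
  | nil =>
    intro Ψ Φ h
    have h' : Φ = Ψ := h
    rw [h']; simp
  | cons a l ih =>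
    intro Ψ Φ h
    obtain ⟨X, hX1, hX2⟩ := h
    have h1 : X.1 = Ψ.1 * r a := hX1
    rw [ih X Φ hX2, h1, List.map_cons, List.prod_cons, mul_assoc]

lemma ofGroup_onlyAcoptic {G : Type} [Group G] {n : ℕ} (r : Fin n → G)
    (h : ∀ l : List (Fin n), l.Perm (List.finRange n) → ∀ i : Fin n, ∀ t : ℤ,
      (l.map r).prod ^ t ∈ Subgroup.closure (r '' {j | j ≠ i}) → (l.map r).prod ^ t = 1) :
    (ofGroup r).OnlyAcoptic := by
  intro l Ψ hΨ i k m hkm
  obtain ⟨hl, hs⟩ := hΨ
  have hstep : ∀ k : ℤ, (Ψ (k + 1)).1 = (Ψ k).1 * (l.map r).prod :=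
    fun k => ofGroup_along r l _ _ (hs k)
  have hall : ∀ k : ℤ, (Ψ k).1 = (Ψ 0).1 * (l.map r).prod ^ k := by
    intro k
    induction k using Int.induction_on with
    | zero => simp
    | succ k ih => rw [hstep, ih, zpow_add_one, mul_assoc]
    | pred k ih =>
      have h1 := hstep (-(k : ℤ) - 1)
      rw [sub_add_cancel, ih] at h1
      rw [zpow_sub_one, ← mul_assoc, h1, mul_inv_cancel_right]
  have h2 : (Ψ k).1⁻¹ * (Ψ m).1 = (l.map r).prod ^ (m - k) := by
    rw [hall k, hall m, sub_eq_neg_add, zpow_add, zpow_neg]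
    group
  have h3 : (Ψ k).1⁻¹ * (Ψ m).1 ∈ Subgroup.closure (r '' {j | j ≠ i}) :=
    QuotientGroup.eq.1 hkm
  rw [h2] at h3
  have h4 := h l hl i (m - k) h3
  rw [h4] at h2
  exact Subtype.ext (inv_mul_eq_one.1 h2)

section Geom

variable {E : Type} [NormedAddCommGroup E] [InnerProductSpace ℝ E]

lemma mirror_apply {a : E} (ha : ‖a‖ = 1) (x : E) : mirror a x = x - (2 * ⟪a, x⟫) • a := by
  unfold mirror
  rw [Submodule.reflection_orthogonal_apply, Submodule.reflection_singleton_apply]
  simp [ha]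
  rw [two_smul, ← add_smul]
  congr 2
  ring

lemma mul_app (A B : E ≃ₗᵢ[ℝ] E) (x : E) : (A * B) x = A (B x) := rfl

lemma mirror_mul_self (a : E) : mirror a * mirror a = 1 := by
  ext x
  simp [mirror]

lemma inner_mirror {a : E} (ha : ‖a‖ = 1) (x b : E) :
    ⟪mirror a x, b⟫ = ⟪x, b⟫ - 2 * ⟪a, b⟫ * ⟪x, a⟫ := by
  rw [mirror_apply ha, inner_sub_left, inner_smul_left, real_inner_comm x a]
  simp
  ring

variable {n : ℕ} {α : Fin n → E}

lemma eq_of_inner (hs : Submodule.span ℝ (Set.range α) = ⊤) {x y : E}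
    (h : ∀ k, ⟪x, α k⟫ = ⟪y, α k⟫) : x = y := by
  have h1 : ∀ z ∈ Submodule.span ℝ (Set.range α), ⟪x - y, z⟫ = 0 := by
    intro z hz
    induction hz using Submodule.span_induction with
    | mem z hz =>
      obtain ⟨k, rfl⟩ := hz
      rw [inner_sub_left, h, sub_self]
    | zero => simp
    | add a b _ _ ha hb => rw [inner_add_right, ha, hb, add_zero]
    | smul c a _ ha => rw [inner_smul_right, ha, mul_zero]
  have h2 := h1 (x - y) (by rw [hs]; trivial)
  rw [inner_self_eq_zero] at h2
  exact sub_eq_zero.1 h2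

lemma exists_dual (hi : LinearIndependent ℝ α) (hs : Submodule.span ℝ (Set.range α) = ⊤) :
    ∃ v : Fin n → E, ∀ i k, ⟪v i, α k⟫ = if k = i then 1 else 0 := by
  classical
  let B := Module.Basis.mk hi hs.ge
  have : FiniteDimensional ℝ E := Module.Basis.finiteDimensional_of_finite B
  have : CompleteSpace E := FiniteDimensional.complete ℝ E
  refine ⟨fun i => (InnerProductSpace.toDual ℝ E).symm
    (LinearMap.toContinuousLinearMap (B.coord i)), fun i k => ?_⟩
  rw [InnerProductSpace.toDual_symm_apply]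
  simp only [LinearMap.coe_toContinuousLinearMap']
  have : α k = B k := by simp [B]
  rw [this, Module.Basis.coord_apply, Module.Basis.repr_self, Finsupp.single_apply]

/-- determinant -/
noncomputable def dt : (E ≃ₗᵢ[ℝ] E) →* ℝˣ where
  toFun g := LinearEquiv.det g.toLinearEquiv
  map_one' := map_one LinearEquiv.det
  map_mul' g h := map_mul LinearEquiv.det g.toLinearEquiv h.toLinearEquiv

lemma dt_mirror [FiniteDimensional ℝ E] {a : E} (ha : ‖a‖ = 1) : dt (mirror a) = -1 := by
  have h := Submodule.linearEquiv_det_reflection (ℝ ∙ a)ᗮ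
  rw [Submodule.orthogonal_orthogonal, finrank_span_singleton (by
    intro h0; rw [h0] at ha; simp at ha), pow_one] at h
  exact h

/-- rank two: all dihedral systems -/
theorem rank_two (α : Fin 2 → E) (hu : ∀ i, ‖α i‖ = 1)
    (hs : Submodule.span ℝ (Set.range α) = ⊤) : (mirrorSystem α).OnlyAcoptic := by
  have hfd : FiniteDimensional ℝ E := by
    have h1 : Module.Finite ℝ (⊤ : Submodule ℝ E) := by
      rw [← hs]
      exact FiniteDimensional.span_of_finite ℝ (Set.finite_range α)
    exact Module.Finite.equiv (Submodule.topEquiv (R := ℝ) (M := E))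
  apply ofGroup_onlyAcoptic
  intro l hl i t ht
  have hdt : dt ((l.map fun i => mirror (α i)).prod ^ t) = 1 := by
    have hlen : l.length = 2 := by rw [hl.length_eq]; simp
    have h1 : ∀ l : List (Fin 2), dt ((l.map fun i => mirror (α i)).prod) = (-1) ^ l.length := by
      intro l
      induction l with
      | nil => simp
      | cons a l ih =>
        rw [List.map_cons, List.prod_cons, map_mul, ih, dt_mirror (hu a), List.length_cons,
          pow_succ, mul_comm]
    rw [map_zpow, h1, hlen]
    simp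
  obtain ⟨j, hj⟩ : ∃ j : Fin 2, {k : Fin 2 | k ≠ i} = {j} := by
    fin_cases i
    · exact ⟨1, by ext k; fin_cases k <;> simp⟩
    · exact ⟨0, by ext k; fin_cases k <;> simp⟩
  rw [hj, Set.image_singleton, Subgroup.mem_closure_singleton] at ht
  obtain ⟨k, hk⟩ := ht
  rw [← hk] at hdt ⊢
  rw [map_zpow, dt_mirror (hu j)] at hdt
  have hev : Even k := by
    by_contra hodd
    rw [Int.not_even_iff_odd] at hodd
    rw [hodd.neg_one_zpow] at hdt
    have := congrArg Units.val hdt
    norm_num at this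
  obtain ⟨m, rfl⟩ := hev
  rw [← two_mul, zpow_mul, zpow_two, mirror_mul_self, one_zpow]

end Geom

/-! ### the model over `ℤ[φ]` -/

abbrev Z2 := ℤ × ℤ

noncomputable def ev (x : Z2) : ℝ := x.1 + x.2 * Real.goldenRatio

def zmul (x y : Z2) : Z2 := (x.1 * y.1 + x.2 * y.2, x.1 * y.2 + x.2 * y.1 + x.2 * y.2)
def zsub (x y : Z2) : Z2 := (x.1 - y.1, x.2 - y.2)

lemma ev_mul (x y : Z2) : ev (zmul x y) = ev x * ev y := by
  simp only [ev, zmul]
  have := Real.goldenRatio_sq
  push_cast
  linear_combination (-(x.2 : ℝ) * y.2) * this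

lemma ev_sub (x y : Z2) : ev (zsub x y) = ev x - ev y := by
  simp only [ev, zsub]
  push_cast
  ring

lemma ev_inj {x y : Z2} (h : ev x = ev y) : x = y := by
  simp only [ev] at h
  by_cases h2 : x.2 = y.2
  · rw [h2] at h
    have : (x.1 : ℝ) = y.1 := by linarith
    exact Prod.ext (by exact_mod_cast this) h2
  · exfalso
    have hne : ((x.2 - y.2 : ℤ) : ℝ) ≠ 0 := by
      rw [Int.cast_ne_zero]; omega
    have h3 : Real.goldenRatio = ((y.1 - x.1 : ℤ) : ℝ) / ((x.2 - y.2 : ℤ) : ℝ) := by
      rw [eq_div_iff hne]; push_cast; linarith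
    apply Real.goldenRatio_irrational
    exact ⟨((y.1 - x.1 : ℤ) : ℚ) / ((x.2 - y.2 : ℤ) : ℚ), by rw [h3]; push_cast; rfl⟩

/-- entry of the matrix `2 ⟪α j, α k⟫` -/
def gent (c : List Z2) (j k : ℕ) : Z2 :=
  if j = k then (2, 0) else if j + 1 = k then zsub (0, 0) (c.getD j (0, 0))
  else if k + 1 = j then zsub (0, 0) (c.getD k (0, 0)) else (0, 0)

def refl (n : ℕ) (c : List Z2) (j : ℕ) (s : List Z2) : List Z2 :=
  (List.range n).map fun k => zsub (s.getD k (0, 0)) (zmul (gent c j k) (s.getD j (0, 0)))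

def cox (n : ℕ) (c : List Z2) (l : List ℕ) (s : List Z2) : List Z2 := l.foldr (refl n c) s

def unitv (n i : ℕ) : List Z2 := (List.range n).map fun k => if k = i then (1, 0) else (0, 0)

/-- the orbit returns to `s0` for the first time after `N` steps -/
def chk (f : List Z2 → List Z2) (s0 : List Z2) : ℕ → List Z2 → Bool
  | 0, _ => false
  | 1, s => decide (f s = s0)
  | n + 2, s => decide (f s ≠ s0) && chk f s0 (n + 1) (f s)

lemma chk_spec (f : List Z2 → List Z2) (s0 : List Z2) : ∀ (n : ℕ) (s : List Z2),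
    chk f s0 (n + 1) s = true → f^[n + 1] s = s0 ∧ ∀ t < n, f^[t + 1] s ≠ s0 := by
  intro n
  induction n with
  | zero => intro s h; simpa [chk] using h
  | succ n ih =>
    intro s h
    simp only [chk, Bool.and_eq_true, decide_eq_true_eq] at h
    obtain ⟨h1, h2⟩ := ih (f s) h.2
    refine ⟨by rw [Function.iterate_succ_apply]; exact h1, ?_⟩
    intro t ht
    cases t with
    | zero => simpa using h.1
    | succ t =>
      rw [Function.iterate_succ_apply]
      exact h2 t (by omega)

def checkSym (n : ℕ) (c : List Z2) (N : ℕ) (canon : List (List (Fin n))) : Bool :=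
  ((List.finRange n).permutations'.all fun l => canon.any fun l' =>
    ((List.range n).all fun k => decide (cox n c (l.map Fin.val) (unitv n k) =
        cox n c (l'.map Fin.val) (unitv n k))) ||
    ((List.range n).all fun k => decide (cox n c (l.map Fin.val)
        (cox n c (l'.map Fin.val) (unitv n k)) = unitv n k))) &&
  canon.all fun l' => (List.range n).all fun i =>
    chk (cox n c (l'.map Fin.val)) (unitv n i) (N + 1) (unitv n i)

section Model

variable {E : Type} [NormedAddCommGroup E] [InnerProductSpace ℝ E] {n : ℕ} {α : Fin n → E}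

/-- `s` is the list of coordinates of `x` -/
def Rep (α : Fin n → E) (x : E) (s : List Z2) : Prop :=
  s.length = n ∧ ∀ k : Fin n, ⟪x, α k⟫ = ev (s.getD k (0, 0))

lemma getD_map_range {β : Type*} (f : ℕ → β) (d : β) {k : ℕ} (hk : k < n) :
    ((List.range n).map f).getD k d = f k := by
  rw [List.getD_eq_getElem _ _ (by simpa using hk)]
  simp

lemma Rep.refl (hu : ∀ i, ‖α i‖ = 1) {c : List Z2}
    (hg : ∀ j k : Fin n, 2 * ⟪α j, α k⟫ = ev (gent c j k)) {x : E} {s : List Z2}
    (h : Rep α x s) (j : Fin n) : Rep α (mirror (α j) x) (PT.refl n c j s) := by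
  refine ⟨by simp [PT.refl], fun k => ?_⟩
  rw [inner_mirror (hu j), PT.refl, getD_map_range _ _ k.2, ev_sub, ev_mul, h.2, h.2, hg]

lemma Rep.cox (hu : ∀ i, ‖α i‖ = 1) {c : List Z2}
    (hg : ∀ j k : Fin n, 2 * ⟪α j, α k⟫ = ev (gent c j k)) {x : E} {s : List Z2}
    (h : Rep α x s) (l : List (Fin n)) :
    Rep α ((l.map fun i => mirror (α i)).prod x) (PT.cox n c (l.map Fin.val) s) := by
  induction l with
  | nil => simpa [PT.cox] using h
  | cons a l ih =>
    rw [List.map_cons, List.prod_cons, mul_app]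
    exact Rep.refl hu hg ih a

lemma Rep.eq (hs : Submodule.span ℝ (Set.range α) = ⊤) {x y : E} {s : List Z2}
    (hx : Rep α x s) (hy : Rep α y s) : x = y :=
  eq_of_inner hs fun k => by rw [hx.2, hy.2]

lemma Rep.eq' {x : E} {s t : List Z2} (hs : Rep α x s) (ht : Rep α x t) : s = t := by
  apply List.ext_getElem (by rw [hs.1, ht.1])
  intro k h1 h2
  have hk : k < n := by rw [← hs.1]; exact h1
  have e1 := hs.2 ⟨k, hk⟩
  have e2 := ht.2 ⟨k, hk⟩
  rw [e1] at e2
  have := ev_inj e2
  simpa [List.getD_eq_getElem, h1, h2] using this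

theorem core (hu : ∀ i, ‖α i‖ = 1) (hi : LinearIndependent ℝ α)
    (hs : Submodule.span ℝ (Set.range α) = ⊤) (c : List Z2)
    (hg : ∀ j k : Fin n, 2 * ⟪α j, α k⟫ = ev (gent c j k)) (N : ℕ)
    (canon : List (List (Fin n))) (hchk : checkSym n c N canon = true) :
    (mirrorSystem α).OnlyAcoptic := by
  classical
  obtain ⟨v, hv⟩ := exists_dual hi hs
  have hrep : ∀ i : Fin n, Rep α (v i) (unitv n i) := by
    intro i
    refine ⟨by simp [unitv], fun k => ?_⟩
    rw [hv, unitv, getD_map_range _ _ k.2]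
    by_cases hk : k = i
    · subst hk; simp [ev]
    · rw [if_neg hk, if_neg (fun e => hk (Fin.ext e))]; simp [ev]
  have hext : ∀ A B : E ≃ₗᵢ[ℝ] E, (∀ k, A (v k) = B (v k)) → A = B := by
    intro A B hAB
    ext x
    have hx : x = ∑ i, ⟪x, α i⟫ • v i := by
      apply eq_of_inner hs
      intro k
      rw [sum_inner]
      simp [inner_smul_left, hv]
    rw [hx, map_sum, map_sum]
    apply Finset.sum_congr rfl
    intro i _
    rw [map_smul, map_smul, hAB]
  simp only [checkSym, Bool.and_eq_true, List.all_eq_true, List.any_eq_true, Bool.or_eq_true,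
    decide_eq_true_eq, List.mem_range] at hchk
  obtain ⟨hperm, hcan⟩ := hchk
  -- the canonical elements
  have hcanon : ∀ l' ∈ canon, ∀ i : Fin n, ∀ t : ℤ,
      ((l'.map fun i => mirror (α i)).prod ^ t) (v i) = v i →
      (l'.map fun i => mirror (α i)).prod ^ t = 1 := by
    intro l' hl'
    set C := (l'.map fun i => mirror (α i)).prod with hC
    have hiter : ∀ (i : Fin n) (t : ℕ), Rep α ((C ^ t) (v i))
        ((cox n c (l'.map Fin.val))^[t] (unitv n i)) := by
      intro i t
      induction t with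
      | zero => simpa using hrep i
      | succ t ih =>
        rw [pow_succ', mul_app, Function.iterate_succ_apply']
        exact Rep.cox hu hg ih l'
    have hN1 : C ^ (N + 1) = 1 := by
      apply hext
      intro k
      have h1 := (chk_spec _ _ _ _ (hcan l' hl' k k.2)).1
      have h2 := hiter k (N + 1)
      rw [h1] at h2
      exact Rep.eq hs h2 (hrep k)
    intro i t ht
    have h0 : (0 : ℤ) < ((N + 1 : ℕ) : ℤ) := by exact_mod_cast Nat.succ_pos N
    have hr0 := Int.emod_nonneg t h0.ne'
    have hr1 := Int.emod_lt_of_pos t h0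
    have hCt : C ^ t = C ^ (t % ((N + 1 : ℕ) : ℤ)) := by
      conv_lhs => rw [← Int.emod_add_mul_ediv t ((N + 1 : ℕ) : ℤ)]
      rw [zpow_add, zpow_mul, zpow_natCast, hN1, one_zpow, mul_one]
    set m := t % ((N + 1 : ℕ) : ℤ) with hm
    obtain ⟨a, ha⟩ := Int.eq_ofNat_of_zero_le hr0
    rw [hCt, ha, zpow_natCast] at ht ⊢
    cases a with
    | zero => simp
    | succ a =>
      exfalso
      apply (chk_spec _ _ _ _ (hcan l' hl' i i.2)).2 a (by omega)
      have h2 := hiter i (a + 1)
      rw [ht] at h2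
      exact Rep.eq' h2 (hrep i)
  apply ofGroup_onlyAcoptic
  intro l hl i t ht
  set C := (l.map fun i => mirror (α i)).prod with hC
  have hfix : (C ^ t) (v i) = v i := by
    have : ∀ g ∈ Subgroup.closure ((fun i => mirror (α i)) '' {j | j ≠ i}), g (v i) = v i := by
      intro g hg'
      induction hg' using Subgroup.closure_induction with
      | mem g hg' =>
        obtain ⟨j, hj, rfl⟩ := hg'
        have hji : j ≠ i := hj
        rw [mirror_apply (hu j), real_inner_comm, hv, if_neg hji]
        simp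
      | one => rfl
      | mul a b _ _ ha hb => rw [mul_app, hb, ha]
      | inv a _ ha =>
        have : a⁻¹ (a (v i)) = v i := by
          rw [← mul_app, inv_mul_cancel]; rfl
        rwa [ha] at this
    exact this _ ht
  obtain ⟨l', hl', hor⟩ := hperm l (List.mem_permutations'.2 hl)
  set C' := (l'.map fun i => mirror (α i)).prod with hC'
  rcases hor with h1 | h1
  · have hCC : C = C' := by
      apply hext
      intro k
      have e1 := Rep.cox hu hg (hrep k) l
      have e2 := Rep.cox hu hg (hrep k) l'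
      rw [h1 k k.2] at e1
      exact Rep.eq hs e1 e2
    rw [hCC] at hfix ⊢
    exact hcanon l' hl' i t hfix
  · have hCC : C * C' = 1 := by
      apply hext
      intro k
      have e1 := Rep.cox hu hg (Rep.cox hu hg (hrep k) l') l
      rw [h1 k k.2] at e1
      exact Rep.eq hs e1 (hrep k)
    have hCinv : C = C'⁻¹ := eq_inv_of_mul_eq_one_left hCC
    rw [hCinv, inv_zpow, ← zpow_neg] at hfix ⊢
    exact hcanon l' hl' i (-t) hfix

end Model

end Pool.Agent.Q238.PT
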