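import Mathlib
import Pool.Agent.Q238.PT.PartD

/-!
# Regular star-polytopes have only acoptic Petrie schemes: the individual symbols
-/

namespace Pool.Agent.Q238.PT

open scoped RealInnerProductSpace

def can3 : List (List (Fin 3)) := [[0,1,2],[1,0,2]]
def can4 : List (List (Fin 4)) := [[0,1,2,3],[0,1,3,2],[1,0,2,3],[1,0,3,2]]

section Checks
set_option maxRecDepth 1000000

lemma s1 : checkSym 3 [(0,1),(-1,1)] 5 can3 = true := by decide +kernel
lemma s2 : checkSym 3 [(-1,1),(0,1)] 5 can3 = true := by decide +kernel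
lemma s3 : checkSym 3 [(1,0),(-1,1)] 9 can3 = true := by decide +kernel
lemma s4 : checkSym 3 [(-1,1),(1,0)] 9 can3 = true := by decide +kernel
lemma q1 : checkSym 4 [(1,0),(1,0),(-1,1)] 29 can4 = true := by decide +kernel
lemma q2 : checkSym 4 [(-1,1),(1,0),(1,0)] 29 can4 = true := by decide +kernel
lemma q3 : checkSym 4 [(1,0),(0,1),(-1,1)] 19 can4 = true := by decide +kernel
lemma q4 : checkSym 4 [(-1,1),(0,1),(1,0)] 19 can4 = true := by decide +kernel
lemma q5 : checkSym 4 [(0,1),(-1,1),(0,1)] 14 can4 = true := by decide +kernel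
lemma q6 : checkSym 4 [(0,1),(1,0),(-1,1)] 11 can4 = true := by decide +kernel
lemma q7 : checkSym 4 [(-1,1),(1,0),(0,1)] 11 can4 = true := by decide +kernel
lemma q8 : checkSym 4 [(-1,1),(0,1),(-1,1)] 14 can4 = true := by decide +kernel
lemma q9 : checkSym 4 [(1,0),(-1,1),(0,1)] 19 can4 = true := by decide +kernel
lemma q10 : checkSym 4 [(0,1),(-1,1),(1,0)] 19 can4 = true := by decide +kernel

end Checks

lemma cos3 : 2 * Real.cos (Real.pi / ((3 : ℚ) : ℝ)) = ev (1, 0) := by
  push_cast
  rw [Real.cos_pi_div_three]; simp [ev]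

lemma cos5 : 2 * Real.cos (Real.pi / ((5 : ℚ) : ℝ)) = ev (0, 1) := by
  push_cast
  rw [Real.cos_pi_div_five]; simp [ev, Real.goldenRatio]; ring

lemma cos52 : 2 * Real.cos (Real.pi / ((5 / 2 : ℚ) : ℝ)) = ev (-1, 1) := by
  have h : Real.pi / ((5 / 2 : ℚ) : ℝ) = 2 * (Real.pi / 5) := by push_cast; ring
  rw [h, Real.cos_two_mul, Real.cos_pi_div_five]
  simp only [ev, Real.goldenRatio]
  have h5 : (Real.sqrt 5) ^ 2 = 5 := Real.sq_sqrt (by norm_num)
  push_cast
  nlinarith [h5]

section

variable {E : Type} [NormedAddCommGroup E] [InnerProductSpace ℝ E]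

lemma gram_of {p : List ℚ} {α : Fin (p.length + 1) → E} (h : IsMirrorSystem p α) (c : List Z2)
    (hc : ∀ i : Fin p.length, 2 * Real.cos (Real.pi / (p.get i : ℝ)) = ev (c.getD i (0, 0))) :
    ∀ j k : Fin (p.length + 1), 2 * ⟪α j, α k⟫ = ev (gent c j k) := by
  have hcon : ∀ j k : Fin (p.length + 1), (j : ℕ) + 1 = k →
      2 * ⟪α j, α k⟫ = ev (zsub (0, 0) (c.getD j (0, 0))) := by
    intro j k hjk
    have hj : (j : ℕ) < p.length := by omega
    have h1 := h.consec ⟨j, hj⟩
    have e1 : (⟨j, hj⟩ : Fin p.length).castSucc = j := rfl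
    have e2 : (⟨j, hj⟩ : Fin p.length).succ = k := Fin.ext hjk
    rw [e1, e2] at h1
    rw [h1, ev_sub, ← hc ⟨j, hj⟩]
    simp [ev]
  intro j k
  unfold gent
  by_cases h1 : (j : ℕ) = k
  · rw [if_pos h1]
    have : j = k := Fin.ext h1
    rw [this, real_inner_self_eq_norm_sq, h.unit]
    simp [ev]
  · rw [if_neg h1]
    by_cases h2 : (j : ℕ) + 1 = k
    · rw [if_pos h2]; exact hcon j k h2
    · rw [if_neg h2]
      by_cases h3 : (k : ℕ) + 1 = j
      · rw [if_pos h3, real_inner_comm]; exact hcon k j h3
      · rw [if_neg h3]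
        rcases Nat.lt_trichotomy j k with h4 | h4 | h4
        · rw [h.perp j k (by omega)]; simp [ev]
        · exact absurd h4 h1
        · rw [real_inner_comm, h.perp k j (by omega)]; simp [ev]

theorem core' {p : List ℚ} {α : Fin (p.length + 1) → E} (h : IsMirrorSystem p α)
    (c : List Z2)
    (hc : ∀ i : Fin p.length, 2 * Real.cos (Real.pi / (p.get i : ℝ)) = ev (c.getD i (0, 0)))
    (N : ℕ) (canon : List (List (Fin (p.length + 1))))
    (hchk : checkSym (p.length + 1) c N canon = true) : (mirrorSystem α).OnlyAcoptic :=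
  core h.unit h.indep h.span c (gram_of h c hc) N canon hchk

theorem partD (p : List ℚ) (hp : IsStarSymbol p) (α : Fin (p.length + 1) → E)
    (h : IsMirrorSystem p α) : (mirrorSystem α).OnlyAcoptic := by
  rcases hp with ⟨a, b, _, _, _, rfl⟩ | hp
  · exact rank_two α h.unit h.span
  · simp only [List.mem_cons, List.not_mem_nil, or_false] at hp
    rcases hp with rfl | rfl | rfl | rfl | rfl | rfl | rfl | rfl | rfl | rfl | rfl | rfl | rfl |
      rfl
    · refine core' h [(0,1),(-1,1)] ?_ 5 can3 s1
      intro i; fin_cases i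
      · exact cos5
      · exact cos52
    · refine core' h [(-1,1),(0,1)] ?_ 5 can3 s2
      intro i; fin_cases i
      · exact cos52
      · exact cos5
    · refine core' h [(1,0),(-1,1)] ?_ 9 can3 s3
      intro i; fin_cases i
      · exact cos3
      · exact cos52
    · refine core' h [(-1,1),(1,0)] ?_ 9 can3 s4
      intro i; fin_cases i
      · exact cos52
      · exact cos3
    · refine core' h [(1,0),(1,0),(-1,1)] ?_ 29 can4 q1
      intro i; fin_cases i
      · exact cos3
      · exact cos3
      · exact cos52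
    · refine core' h [(-1,1),(1,0),(1,0)] ?_ 29 can4 q2
      intro i; fin_cases i
      · exact cos52
      · exact cos3
      · exact cos3
    · refine core' h [(1,0),(0,1),(-1,1)] ?_ 19 can4 q3
      intro i; fin_cases i
      · exact cos3
      · exact cos5
      · exact cos52
    · refine core' h [(-1,1),(0,1),(1,0)] ?_ 19 can4 q4
      intro i; fin_cases i
      · exact cos52
      · exact cos5
      · exact cos3
    · refine core' h [(0,1),(-1,1),(0,1)] ?_ 14 can4 q5
      intro i; fin_cases i
      · exact cos5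
      · exact cos52
      · exact cos5
    · refine core' h [(0,1),(1,0),(-1,1)] ?_ 11 can4 q6
      intro i; fin_cases i
      · exact cos5
      · exact cos3
      · exact cos52
    · refine core' h [(-1,1),(1,0),(0,1)] ?_ 11 can4 q7
      intro i; fin_cases i
      · exact cos52
      · exact cos3
      · exact cos5
    · refine core' h [(-1,1),(0,1),(-1,1)] ?_ 14 can4 q8
      intro i; fin_cases i
      · exact cos52
      · exact cos5
      · exact cos52
    · refine core' h [(1,0),(-1,1),(0,1)] ?_ 19 can4 q9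
      intro i; fin_cases i
      · exact cos3
      · exact cos52
      · exact cos5
    · refine core' h [(0,1),(-1,1),(1,0)] ?_ 19 can4 q10
      intro i; fin_cases i
      · exact cos5
      · exact cos52
      · exact cos3

end

end Pool.Agent.Q238.PT
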